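import Pool.Agent.X139.LS.Defs

/-!
# Entropy, its dual bound, and the tensorization of entropy (two factors)
-/

set_option autoImplicit false

open MeasureTheory Set Real

namespace Pool.Agent.X139.LS

section gen

variable {α : Type*} [MeasurableSpace α] (μ : Measure α) [IsProbabilityMeasure μ]

theorem int_pos (F : α → ℝ) (hF : ∀ x, 0 < F x) (i1 : Integrable F μ) : 0 < ∫ x, F x ∂μ := by
  rw [integral_pos_iff_support_of_nonneg (fun x => (hF x).le) i1]
  have : Function.support F = univ := by
    ext x; simpa using (hF x).ne'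
  rw [this]
  simp

theorem dual (F g : α → ℝ) (hF : ∀ x, 0 < F x) (i1 : Integrable F μ)
    (i2 : Integrable (fun x => F x * log (F x)) μ) (i3 : Integrable (fun x => F x * g x) μ)
    (i4 : Integrable (fun x => exp (g x)) μ) (hg : ∫ x, exp (g x) ∂μ ≤ 1) :
    ∫ x, F x * g x ∂μ ≤ Ent μ F := by
  set c := ∫ x, F x ∂μ with hc
  have hc0 : 0 < c := int_pos μ F hF i1
  have hpt : ∀ x, F x * g x ≤ F x * log (F x) - F x * log c - F x + c * exp (g x) := by
    intro x
    have h1 := add_one_le_exp (g x - log (F x / c))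
    have hFx := hF x
    have h2 : exp (g x - log (F x / c)) = exp (g x) * (c / F x) := by
      rw [exp_sub, exp_log (by positivity)]
      field_simp
    rw [h2, log_div hFx.ne' hc0.ne'] at h1
    have h3 := mul_le_mul_of_nonneg_left h1 hFx.le
    have h4 : F x * (exp (g x) * (c / F x)) = c * exp (g x) := by
      field_simp
    rw [h4] at h3
    nlinarith
  have h5 : ∫ x, F x * g x ∂μ ≤
      ∫ x, (F x * log (F x) - F x * log c - F x + c * exp (g x)) ∂μ := by
    refine integral_mono i3 ?_ hpt
    exact ((i2.sub (i1.mul_const _)).sub i1).add (i4.const_mul _)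
  have h6 : ∫ x, (F x * log (F x) - F x * log c - F x + c * exp (g x)) ∂μ =
      ∫ x, F x * log (F x) ∂μ - c * log c - c + c * ∫ x, exp (g x) ∂μ := by
    have j1 : Integrable (fun x => F x * log c) μ := i1.mul_const _
    have j2 : Integrable (fun x => F x * log (F x) - F x * log c) μ := i2.sub j1
    have j3 : Integrable (fun x => F x * log (F x) - F x * log c - F x) μ := j2.sub i1
    have j4 : Integrable (fun x => c * exp (g x)) μ := i4.const_mul _
    rw [integral_add j3 j4, integral_sub j2 i1, integral_sub i2 j1,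
      integral_mul_const, integral_const_mul]
  rw [h6] at h5
  unfold Ent
  rw [← hc]
  have : c * ∫ x, exp (g x) ∂μ ≤ c * 1 := mul_le_mul_of_nonneg_left hg hc0.le
  linarith

end gen

theorem integrable_of_cont {X : Type*} [TopologicalSpace X] [MeasurableSpace X]
    [OpensMeasurableSpace X] [SecondCountableTopology X]
    [T2Space X] (μ : Measure X) [IsFiniteMeasure μ] {s : Set X} (hs : IsCompact s)
    (hμ : μ.restrict s = μ) (f : X → ℝ) (hf : Continuous f) : Integrable f μ := by
  rw [← hμ]
  have := hf.continuousOn.integrableOn_compact (μ := μ) hs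
  exact this

theorem hlog {Z : Type*} [TopologicalSpace Z] (g : Z → ℝ) (hg : Continuous g)
    (hg0 : ∀ z, 0 < g z) : Continuous (fun z => g z * log (g z)) :=
  hg.mul (hg.log fun z => (hg0 z).ne')

section two

variable {Y : Type*} [TopologicalSpace Y] [MeasurableSpace Y] [BorelSpace Y]
    [SecondCountableTopology Y] [LocallyCompactSpace Y] [T2Space Y]

theorem tensor (μ : Measure ℝ) (ν : Measure Y) [IsProbabilityMeasure μ] [IsProbabilityMeasure ν]
    {s : Set ℝ} {t : Set Y} (hs : IsCompact s) (ht : IsCompact t) (hμ : μ.restrict s = μ)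
    (hν : ν.restrict t = ν) (F : ℝ × Y → ℝ) (hF : Continuous F) (h0 : ∀ z, 0 < F z) :
    Ent (μ.prod ν) F ≤ (∫ x, Ent ν (fun y => F (x, y)) ∂μ) +
      ∫ y, Ent μ (fun x => F (x, y)) ∂ν := by
  have hst : (μ.prod ν).restrict (s ×ˢ t) = μ.prod ν := by
    rw [← Measure.prod_restrict, hμ, hν]
  have hprod : ∀ f : ℝ × Y → ℝ, Continuous f → Integrable f (μ.prod ν) := fun f hf =>
    integrable_of_cont _ (hs.prod ht) hst f hf
  have hYc : ∀ f : ℝ × Y → ℝ, Continuous f → Continuous (fun x => ∫ y, f (x, y) ∂ν) := by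
    intro f hf
    have := continuous_parametric_integral_of_continuous (μ := ν) (f := fun x y => f (x, y))
      hf ht
    rwa [hν] at this
  have hXc : ∀ f : ℝ × Y → ℝ, Continuous f → Continuous (fun y => ∫ x, f (x, y) ∂μ) := by
    intro f hf
    have := continuous_parametric_integral_of_continuous (μ := μ) (f := fun y x => f (x, y))
      (hf.comp (continuous_snd.prodMk continuous_fst)) hs
    rwa [hμ] at this
  have hXi : ∀ f : ℝ → ℝ, Continuous f → Integrable f μ := fun f hf =>
    integrable_of_cont _ hs hμ f hf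
  have hYi : ∀ f : Y → ℝ, Continuous f → Integrable f ν := fun f hf =>
    integrable_of_cont _ ht hν f hf
  set G : ℝ → ℝ := fun x => ∫ y, F (x, y) ∂ν with hG
  have hGc : Continuous G := hYc F hF
  have hGpos : ∀ x, 0 < G x := fun x =>
    int_pos ν _ (fun y => h0 _) (hYi _ (hF.comp (by fun_prop)))
  set c := ∫ x, G x ∂μ with hc
  have hcpos : 0 < c := int_pos μ G hGpos (hXi _ hGc)
  have e1 : ∫ z, F z ∂(μ.prod ν) = c := integral_prod F (hprod F hF)
  have e2 : ∫ z, F z * log (F z) ∂(μ.prod ν) = ∫ x, ∫ y, F (x, y) * log (F (x, y)) ∂ν ∂μ :=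
    integral_prod _ (hprod _ (hlog F hF h0))
  have e3 : (∫ x, Ent ν (fun y => F (x, y)) ∂μ) =
      (∫ x, ∫ y, F (x, y) * log (F (x, y)) ∂ν ∂μ) - ∫ x, G x * log (G x) ∂μ := by
    rw [← integral_sub]
    · rfl
    · exact hXi _ (hYc (fun z => F z * log (F z)) (hlog F hF h0))
    · exact hXi _ (hlog G hGc hGpos)
  set g : ℝ → ℝ := fun x => log (G x / c) with hg
  have hgc : Continuous g := by
    refine Continuous.log (hGc.div_const c) fun x => ?_
    have := hGpos x
    positivity
  have hexp : ∀ x, exp (g x) = G x / c := fun x => exp_log (div_pos (hGpos x) hcpos)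
  have hexp1 : ∫ x, exp (g x) ∂μ ≤ 1 := by
    simp only [hexp]
    rw [integral_div, ← hc, div_self hcpos.ne']
  have e4 : (∫ x, G x * log (G x) ∂μ) - c * log c = ∫ x, G x * g x ∂μ := by
    have : ∀ x, G x * g x = G x * log (G x) - G x * log c := by
      intro x
      simp only [hg]
      rw [log_div (hGpos x).ne' hcpos.ne']
      ring
    simp only [this]
    rw [integral_sub (hXi _ (hlog G hGc hGpos)) (hXi _ (hGc.mul_const _)), integral_mul_const]
  have e5 : ∫ x, G x * g x ∂μ = ∫ y, ∫ x, F (x, y) * g x ∂μ ∂ν := by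
    have hc2 : Continuous (fun z : ℝ × Y => F z * g z.1) :=
      hF.mul (hgc.comp continuous_fst)
    have h1 : ∀ x, G x * g x = ∫ y, F (x, y) * g x ∂ν := by
      intro x
      rw [integral_mul_const]
    simp only [h1]
    exact integral_integral_swap (f := fun x y => F (x, y) * g x) (hprod _ hc2)
  have e6 : ∫ y, ∫ x, F (x, y) * g x ∂μ ∂ν ≤ ∫ y, Ent μ (fun x => F (x, y)) ∂ν := by
    refine integral_mono ?_ ?_ ?_
    · exact hYi _ (hXc (fun z => F z * g z.1) (hF.mul (hgc.comp continuous_fst)))
    · refine hYi _ ?_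
      unfold Ent
      have k1 := hXc (fun z => F z * log (F z)) (hlog F hF h0)
      have k2 := hXc F hF
      have k3 : ∀ y, 0 < ∫ x, F (x, y) ∂μ := fun y =>
        int_pos μ _ (fun x => h0 _) (hXi _ (hF.comp (by fun_prop)))
      exact k1.sub (hlog _ k2 k3)
    · intro y
      have kF : Continuous (fun x => F (x, y)) := hF.comp (by fun_prop)
      refine dual μ (fun x => F (x, y)) g (fun x => h0 _) (hXi _ kF) (hXi _ (hlog _ kF fun x => h0 _))
        (hXi _ (kF.mul hgc)) (hXi _ (Real.continuous_exp.comp hgc)) hexp1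
  unfold Ent at e3 ⊢
  rw [e1, e2, e3]
  unfold Ent at e6
  linarith [e4, e5, e6]

end two

end Pool.Agent.X139.LS
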