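import Mathlib

/-!
# Definitions: entropy, log-Sobolev constant, log-concave measure
-/

set_option autoImplicit false

open MeasureTheory Set Real
open scoped ContDiff ENNReal Pointwise

namespace Pool.Agent.X139.LS

/-- the entropy `E[g log g] - E[g] log E[g]` -/
noncomputable def Ent {α : Type*} [MeasurableSpace α] (μ : Measure α) (g : α → ℝ) : ℝ :=
  ∫ x, g x * log (g x) ∂μ - (∫ x, g x ∂μ) * log (∫ x, g x ∂μ)

/-- Euclidean space -/
abbrev E (n : ℕ) := EuclideanSpace ℝ (Fin n)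

/-- the log-Sobolev constant: the least `C ∈ [0,∞]` with `Ent_μ[f²] ≤ C E_μ ‖∇f‖²` for all
smooth `f` -/
noncomputable def CLSI {n : ℕ} (μ : Measure (E n)) : ℝ≥0∞ :=
  sInf {C : ℝ≥0∞ | ∀ f : E n → ℝ, ContDiff ℝ ∞ f →
    ENNReal.ofReal (Ent μ (fun x => f x ^ 2)) ≤
      C * ∫⁻ x, ENNReal.ofReal (‖gradient f x‖ ^ 2) ∂μ}

/-- log-concave measure (definition with compact sets; the sets are nonempty so that the
endpoints `t = 0, 1` can be included) -/
def LogConc {n : ℕ} (μ : Measure (E n)) : Prop :=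
  ∀ A B : Set (E n), IsCompact A → IsCompact B → A.Nonempty → B.Nonempty →
    ∀ t : ℝ, 0 ≤ t → t ≤ 1 → μ A ^ t * μ B ^ (1 - t) ≤ μ (t • A + (1 - t) • B)

end Pool.Agent.X139.LS
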