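import Pool.Agent.X139.LS.Map

/-!
# Isotropy of the example
-/

set_option autoImplicit false

open MeasureTheory Set Real Filter Topology
open scoped ContDiff RealInnerProductSpace

namespace Pool.Agent.X139.LS

/-- product of uniform laws -/
noncomputable def Um (m : ℕ) : Measure (Fin m → ℝ) := Measure.pi fun _ => Un

instance (m : ℕ) : IsProbabilityMeasure (Um m) := by
  unfold Um; infer_instance

theorem Um_coord (m : ℕ) (k : Fin m) : ∫ v, v k ∂(Um m) = 0 := by
  unfold Um
  rw [integral_eval]
  exact Un_id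

theorem Um_sq (m : ℕ) (k : Fin m) : ∫ v, v k ^ 2 ∂(Um m) = 1 / 3 := by
  unfold Um
  rw [integral_comp_eval (μ := fun _ : Fin m => Un) (f := fun t : ℝ => t ^ 2) (by fun_prop)]
  exact Un_sq

theorem Um_cross (m : ℕ) (k l : Fin m) (hkl : k ≠ l) : ∫ v, v k * v l ∂(Um m) = 0 := by
  unfold Um
  have h := integral_fintype_prod_eq_prod (𝕜 := ℝ) (ι := Fin m) (E := fun _ => ℝ)
    (μ := fun _ => Un) (fun i t => (if i = k then t else 1) * (if i = l then t else 1))
  have h1 : ∀ v : Fin m → ℝ, ∏ i, ((if i = k then v i else 1) * (if i = l then v i else 1)) =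
      v k * v l := by
    intro v
    rw [Finset.prod_mul_distrib, Finset.prod_ite_eq', Finset.prod_ite_eq']
    simp
  simp only [h1] at h
  rw [h]
  refine Finset.prod_eq_zero (Finset.mem_univ k) ?_
  simp only [if_true, if_neg hkl, mul_one]
  exact Un_id

theorem mu0_cons {L N : ℝ} (hL : 1 ≤ L) (hN : 2 ≤ N) (m : ℕ) (f : (Fin (m + 1) → ℝ) → ℝ) :
    ∫ s, f s ∂(mu0 L N m) = ∫ z : ℝ × (Fin m → ℝ), f (Fin.cons z.1 z.2) ∂((Pm L N).prod (Um m)) := by
  have := mus_prob hL hN m
  exact int_cons m (mus L N m) f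

theorem mu0_prod {L N : ℝ} (hL : 1 ≤ L) (hN : 2 ≤ N) (m : ℕ) (f : ℝ → ℝ)
    (g : (Fin m → ℝ) → ℝ) :
    ∫ s, f (s 0) * g (fun j => s j.succ) ∂(mu0 L N m) = (∫ x, f x ∂(Pm L N)) * ∫ v, g v ∂(Um m) := by
  have := (Pm_good hL hN).prob
  rw [mu0_cons hL hN, ← integral_prod_mul]
  rfl

theorem mu0_first {L N : ℝ} (hL : 1 ≤ L) (hN : 2 ≤ N) (m : ℕ) (f : ℝ → ℝ) :
    ∫ s, f (s 0) ∂(mu0 L N m) = ∫ x, f x ∂(Pm L N) := by
  have := mu0_prod hL hN m f (fun _ => 1)
  simpa using this

/-- barycentre of the first law -/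
noncomputable def xb (L N : ℝ) : ℝ := ∫ x, x ∂(Pm L N)

/-- variance of the first law -/
noncomputable def sg (L N : ℝ) : ℝ := ∫ x, (x - xb L N) ^ 2 ∂(Pm L N)

/-- second moment of the radius -/
noncomputable def er (L N : ℝ) : ℝ := ∫ x, (1 - x / (L * N)) ^ 2 ∂(Pm L N)

/-- scaling of the first coordinate -/
noncomputable def al (L N : ℝ) : ℝ := √(1 / sg L N)

/-- scaling of the other coordinates -/
noncomputable def be (L N : ℝ) : ℝ := √(3 / er L N)

section
variable {L N : ℝ} (hL : 1 ≤ L) (hN : 2 ≤ N)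
include hL hN

theorem Pm_integrable (f : ℝ → ℝ) (hf : Continuous f) : Integrable f (Pm L N) := by
  have := (Pm_good hL hN).prob
  exact integrable_of_cont _ isCompact_Icc (Pm_good hL hN).on f hf

theorem sg_ge : 1 / 250 ≤ sg L N := var_lower hL hN _

theorem sg_le : sg L N ≤ 336 := by
  have := (Pm_good hL hN).prob
  have h1 : sg L N = ∫ x, x ^ 2 ∂(Pm L N) - xb L N ^ 2 := by
    unfold sg
    have h2 : ∀ x, (x - xb L N) ^ 2 = x ^ 2 - 2 * xb L N * x + xb L N ^ 2 := fun x => by ring
    simp only [h2]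
    rw [integral_add, integral_sub, integral_const_mul]
    · have : ∫ x, x ∂(Pm L N) = xb L N := rfl
      rw [this]
      simp
      ring
    all_goals exact Pm_integrable hL hN _ (by fun_prop)
  rw [h1]
  have := sq_upper hL hN
  nlinarith [sq_nonneg (xb L N)]

theorem er_bounds : 1 / 4 ≤ er L N ∧ er L N ≤ 1 := by
  have := (Pm_good hL hN).prob
  have hon := (Pm_good hL hN).on
  constructor
  · have : ∫ _, (1 / 4 : ℝ) ∂(Pm L N) ≤ er L N := by
      refine int_mono_on _ isCompact_Icc hon _ _ (by fun_prop) (by fun_prop) fun x hx => ?_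
      have := r_low hL hN hx
      nlinarith
    simpa using this
  · have : er L N ≤ ∫ _, (1 : ℝ) ∂(Pm L N) := by
      refine int_mono_on _ isCompact_Icc hon _ _ (by fun_prop) (by fun_prop) fun x hx => ?_
      have h1 := r_low hL hN hx
      have h2 : 0 ≤ x / (L * N) := by
        have := hx.1
        positivity
      nlinarith
    simpa using this

theorem al_sq : al L N ^ 2 = 1 / sg L N := by
  have := sg_ge hL hN
  exact Real.sq_sqrt (by positivity)

theorem be_sq : be L N ^ 2 = 3 / er L N := by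
  have := (er_bounds hL hN).1
  exact Real.sq_sqrt (by positivity)

theorem al_le : al L N ^ 2 ≤ 250 := by
  rw [al_sq hL hN]
  have := sg_ge hL hN
  rw [div_le_iff₀ (by linarith)]
  linarith

theorem al_ge : 1 / 336 ≤ al L N ^ 2 := by
  rw [al_sq hL hN]
  have := sg_ge hL hN
  have := sg_le hL hN
  gcongr

theorem be_le : be L N ^ 2 ≤ 12 := by
  rw [be_sq hL hN]
  have := (er_bounds hL hN).1
  rw [div_le_iff₀ (by linarith)]
  linarith

theorem be_ge : 3 ≤ be L N ^ 2 := by
  rw [be_sq hL hN]
  have h1 := (er_bounds hL hN).1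
  have h2 := (er_bounds hL hN).2
  rw [le_div_iff₀ (by linarith)]
  linarith

/-- the law on Euclidean space -/
noncomputable def PI (L N : ℝ) (m : ℕ) : Measure (E (m + 1)) :=
  (mu0 L N m).map (T L N (al L N) (be L N) (xb L N) m)

omit hL hN in
theorem PI_int (m : ℕ) (f : E (m + 1) → ℝ) (hf : Continuous f) :
    ∫ z, f z ∂(PI L N m) = ∫ s, f (T L N (al L N) (be L N) (xb L N) m s) ∂(mu0 L N m) := by
  unfold PI
  rw [integral_map (T_cont _ _ _ _ _ _).measurable.aemeasurable hf.aestronglyMeasurable]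

theorem PI_prob (m : ℕ) : IsProbabilityMeasure (PI L N m) := by
  have := mu0_prob hL hN m
  unfold PI
  exact Measure.isProbabilityMeasure_map (T_cont _ _ _ _ _ _).measurable.aemeasurable

theorem PI_mean (m : ℕ) (i : Fin (m + 1)) : ∫ z, z i ∂(PI L N m) = 0 := by
  have hp := (Pm_good hL hN).prob
  rw [PI_int m (fun z => z i) (by fun_prop)]
  refine Fin.cases ?_ (fun k => ?_) i
  · simp only [T_zero]
    rw [mu0_first hL hN m (fun x => al L N * (x - xb L N)), integral_const_mul,
      integral_sub (Pm_integrable hL hN _ (by fun_prop)) (Pm_integrable hL hN _ (by fun_prop))]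
    have : ∫ x, x ∂(Pm L N) = xb L N := rfl
    rw [this]
    simp
  · simp only [T_succ]
    rw [mu0_prod hL hN m (fun x => be L N * (1 - x / (L * N))) (fun v => v k), Um_coord, mul_zero]

theorem PI_cov (m : ℕ) (i j : Fin (m + 1)) :
    ∫ z, z i * z j ∂(PI L N m) = if i = j then 1 else 0 := by
  have hp := (Pm_good hL hN).prob
  rw [PI_int m (fun z => z i * z j) (by fun_prop)]
  have hsg := sg_ge hL hN
  have her := (er_bounds hL hN).1
  have h0k : ∀ k : Fin m, ∫ s, T L N (al L N) (be L N) (xb L N) m s 0 *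
      T L N (al L N) (be L N) (xb L N) m s k.succ ∂(mu0 L N m) = 0 := by
    intro k
    simp only [T_zero, T_succ]
    have h1 : ∀ s : Fin (m + 1) → ℝ, al L N * (s 0 - xb L N) *
        (be L N * (1 - s 0 / (L * N)) * s k.succ) =
        (fun x => al L N * (x - xb L N) * (be L N * (1 - x / (L * N)))) (s 0) *
          (fun v : Fin m → ℝ => v k) (fun j => s j.succ) := fun s => by ring
    simp only [h1]
    rw [mu0_prod hL hN m (fun x => al L N * (x - xb L N) * (be L N * (1 - x / (L * N))))
      (fun v => v k), Um_coord, mul_zero]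
  induction i using Fin.cases with
  | zero =>
    induction j using Fin.cases with
    | zero =>
      simp only [T_zero, if_true]
      rw [mu0_first hL hN m (fun x => al L N * (x - xb L N) * (al L N * (x - xb L N)))]
      have h1 : ∀ x, al L N * (x - xb L N) * (al L N * (x - xb L N)) =
          al L N ^ 2 * (x - xb L N) ^ 2 := fun x => by ring
      simp only [h1]
      rw [integral_const_mul, al_sq hL hN]
      have : ∫ x, (x - xb L N) ^ 2 ∂(Pm L N) = sg L N := rfl
      rw [this]
      field_simp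
    | succ l =>
      rw [h0k l, if_neg (Fin.succ_ne_zero l).symm]
  | succ k =>
    induction j using Fin.cases with
    | zero =>
      rw [if_neg (Fin.succ_ne_zero k)]
      have := h0k k
      simp only [mul_comm (T L N (al L N) (be L N) (xb L N) m _ k.succ)]
      exact this
    | succ l =>
      simp only [T_succ]
      by_cases hkl : k = l
      · subst hkl
        rw [if_pos rfl]
        have h1 : ∀ s : Fin (m + 1) → ℝ, be L N * (1 - s 0 / (L * N)) * s k.succ *
            (be L N * (1 - s 0 / (L * N)) * s k.succ) =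
            (fun x => be L N ^ 2 * (1 - x / (L * N)) ^ 2) (s 0) *
              (fun v : Fin m → ℝ => v k ^ 2) (fun j => s j.succ) := fun s => by ring
        simp only [h1]
        rw [mu0_prod hL hN m (fun x => be L N ^ 2 * (1 - x / (L * N)) ^ 2)
          (fun v => v k ^ 2), Um_sq, integral_const_mul, be_sq hL hN]
        have : ∫ x, (1 - x / (L * N)) ^ 2 ∂(Pm L N) = er L N := rfl
        rw [this]
        field_simp
      · rw [if_neg (fun h => hkl (Fin.succ_injective _ h))]
        have h1 : ∀ s : Fin (m + 1) → ℝ, be L N * (1 - s 0 / (L * N)) * s k.succ *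
            (be L N * (1 - s 0 / (L * N)) * s l.succ) =
            (fun x => be L N ^ 2 * (1 - x / (L * N)) ^ 2) (s 0) *
              (fun v : Fin m → ℝ => v k * v l) (fun j => s j.succ) := fun s => by ring
        simp only [h1]
        rw [mu0_prod hL hN m (fun x => be L N ^ 2 * (1 - x / (L * N)) ^ 2)
          (fun v => v k * v l), Um_cross m k l hkl, mul_zero]

/-- compact support -/
theorem PI_support (m : ℕ) :
    (PI L N m) (T L N (al L N) (be L N) (xb L N) m '' Bx L m)ᶜ = 0 := by
  have h := mu0_on hL hN m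
  have hc := ((Bx_compact L m).image (T_cont L N (al L N) (be L N) (xb L N) m))
  unfold PI
  rw [Measure.map_apply (T_cont _ _ _ _ _ _).measurable hc.measurableSet.compl]
  have h2 : mu0 L N m (Bx L m)ᶜ = 0 := by
    rw [← h, Measure.restrict_apply (Bx_compact L m).measurableSet.compl]
    simp
  refine measure_mono_null ?_ h2
  intro s hs hsB
  exact hs ⟨s, hsB, rfl⟩

/-- the log-Sobolev inequality of the example -/
theorem PI_lsi {m : ℕ} (hm : (m : ℝ) = N ^ 2) (f : E (m + 1) → ℝ) (hf : ContDiff ℝ 1 f) :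
    Ent (PI L N m) (fun z => f z ^ 2) ≤ 3000 * L * ∫ z, ‖gradient f z‖ ^ 2 ∂(PI L N m) := by
  have h := lsi_zero hL hN hm (al_le hL hN) (be_le hL hN) (xb L N) f hf
  have hfc := hf.continuous
  unfold Ent at h ⊢
  rw [PI_int m (fun z => f z ^ 2) (by fun_prop),
    PI_int m (fun z => f z ^ 2 * log (f z ^ 2)) (by
      exact Real.continuous_mul_log.comp (hfc.pow 2)),
    PI_int m (fun z => ‖gradient f z‖ ^ 2) (by
      exact (gradient_cont f hf).norm.pow 2)]
  exact h

end

end Pool.Agent.X139.LS
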