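import Pool.Agent.X139.LS.Tilt
import Pool.Agent.H212R2.KLS.T1

/-!
# Log-concavity of the example
-/

set_option autoImplicit false

open MeasureTheory Set Real Filter Topology
open scoped ContDiff RealInnerProductSpace ENNReal Pointwise

namespace Pool.Agent.X139.LS

/-- the affine part of the map -/
noncomputable def Aff (L N : ℝ) (m : ℕ) (p : ℝ × (Fin m → ℝ)) : E (m + 1) :=
  WithLp.toLp 2 (Fin.cons (al L N * (p.1 - xb L N)) (fun j => be L N * p.2 j))

theorem Aff_cont (L N : ℝ) (m : ℕ) : Continuous (Aff L N m) := by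
  unfold Aff
  refine (PiLp.continuous_toLp 2 _).comp (continuous_pi fun i => ?_)
  refine Fin.cases ?_ (fun j => ?_) i
  · simp only [Fin.cons_zero]
    fun_prop
  · simp only [Fin.cons_succ]
    fun_prop

theorem Aff_comb (L N : ℝ) (m : ℕ) (s t : ℝ) (hst : s + t = 1) (p q : ℝ × (Fin m → ℝ)) :
    Aff L N m (s • p + t • q) = s • Aff L N m p + t • Aff L N m q := by
  ext i
  refine Fin.cases ?_ (fun j => ?_) i
  · simp only [Aff, PiLp.add_apply, PiLp.smul_apply, Fin.cons_zero, smul_eq_mul, Prod.fst_add,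
      Prod.smul_fst]
    have : xb L N = (s + t) * xb L N := by rw [hst, one_mul]
    nth_rewrite 1 [this]
    ring
  · simp only [Aff, PiLp.add_apply, PiLp.smul_apply, Fin.cons_succ, smul_eq_mul, Prod.snd_add,
      Prod.smul_snd, Pi.add_apply, Pi.smul_apply]
    ring

/-- the convex body (before the affine map) -/
def KK (L N : ℝ) (m : ℕ) : Set (ℝ × (Fin m → ℝ)) :=
  {p | p.1 ∈ Icc 0 L ∧ ∀ j, |p.2 j| ≤ 1 - p.1 / (L * N)}

theorem KK_meas (L N : ℝ) (m : ℕ) : MeasurableSet (KK L N m) := by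
  unfold KK
  have h1 : IsClosed {p : ℝ × (Fin m → ℝ) | p.1 ∈ Icc 0 L ∧ ∀ j, |p.2 j| ≤ 1 - p.1 / (L * N)} := by
    refine IsClosed.inter (isClosed_Icc.preimage continuous_fst) ?_
    have : {p : ℝ × (Fin m → ℝ) | ∀ j, |p.2 j| ≤ 1 - p.1 / (L * N)} =
        ⋂ j, {p : ℝ × (Fin m → ℝ) | |p.2 j| ≤ 1 - p.1 / (L * N)} := by
      ext p; simp
    change IsClosed {p : ℝ × (Fin m → ℝ) | ∀ j, |p.2 j| ≤ 1 - p.1 / (L * N)}
    rw [this]
    refine isClosed_iInter fun j => isClosed_le ?_ ?_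
    · fun_prop
    · fun_prop
  exact h1.measurableSet

theorem KK_comb (L N : ℝ) (m : ℕ) (s t : ℝ) (hs : 0 ≤ s) (ht : 0 ≤ t) (hst : s + t = 1)
    {p q : ℝ × (Fin m → ℝ)} (hp : p ∈ KK L N m) (hq : q ∈ KK L N m) :
    s • p + t • q ∈ KK L N m := by
  obtain ⟨hp1, hp2⟩ := hp
  obtain ⟨hq1, hq2⟩ := hq
  constructor
  · have := (convex_Icc (0:ℝ) L) hp1 hq1 hs ht hst
    exact this
  · intro j
    simp only [Prod.snd_add, Prod.smul_snd, Pi.add_apply, Pi.smul_apply, smul_eq_mul, Prod.fst_add,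
      Prod.smul_fst]
    have h1 := hp2 j
    have h2 := hq2 j
    calc |s * p.2 j + t * q.2 j| ≤ |s * p.2 j| + |t * q.2 j| := abs_add_le _ _
      _ = s * |p.2 j| + t * |q.2 j| := by rw [abs_mul, abs_mul, abs_of_nonneg hs, abs_of_nonneg ht]
      _ ≤ s * (1 - p.1 / (L * N)) + t * (1 - q.1 / (L * N)) := by gcongr
      _ = 1 - (s * p.1 + t * q.1) / (L * N) := by
        have : (1:ℝ) = s + t := hst.symm
        nth_rewrite 3 [this]
        ring

theorem Un_eq : Un = (1 / 2 : ℝ≥0∞) • volume.restrict (Icc (-1 : ℝ) 1) := by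
  unfold Un TM
  have : (fun _ : ℝ => -(0:ℝ)) = 0 := by
    funext x; simp
  rw [this, tilted_zero', Measure.restrict_apply_univ, Real.volume_Icc]
  congr 1
  norm_num

theorem Um_eq (m : ℕ) : Um m = ((1 / 2 : ℝ≥0∞) ^ m) •
    (volume : Measure (Fin m → ℝ)).restrict (Set.univ.pi fun _ => Icc (-1 : ℝ) 1) := by
  unfold Um
  refine Measure.pi_eq fun s hs => ?_
  rw [Measure.smul_apply, volume_pi, Measure.restrict_pi_pi, Measure.pi_pi, smul_eq_mul]
  simp only [Un_eq, Measure.smul_apply, smul_eq_mul]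
  rw [Finset.prod_mul_distrib]
  simp

section
variable {L N : ℝ} (hL : 1 ≤ L) (hN : 2 ≤ N)
include hL hN

theorem slice {m : ℕ} {x : ℝ} (hx : x ∈ Icc 0 L) (S : Set (E (m + 1))) :
    Um m {v | T L N (al L N) (be L N) (xb L N) m (Fin.cons x v) ∈ S} =
      (1 / 2 : ℝ≥0∞) ^ m * (ENNReal.ofReal (((1 - x / (L * N)) ^ m)⁻¹) *
        volume {y : Fin m → ℝ | (x, y) ∈ KK L N m ∩ Aff L N m ⁻¹' S}) := by
  have hr := r_low hL hN hx
  set r := 1 - x / (L * N) with hrdef
  have hr0 : 0 < r := by linarith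
  rw [Um_eq, Measure.smul_apply, smul_eq_mul]
  congr 1
  rw [Measure.restrict_apply' (MeasurableSet.univ_pi fun _ => measurableSet_Icc)]
  have h1 : ({v : Fin m → ℝ | T L N (al L N) (be L N) (xb L N) m (Fin.cons x v) ∈ S} ∩
      Set.univ.pi fun _ => Icc (-1 : ℝ) 1) =
      (fun v => r • v) ⁻¹' {y : Fin m → ℝ | (x, y) ∈ KK L N m ∩ Aff L N m ⁻¹' S} := by
    ext v
    simp only [mem_inter_iff, mem_ofPred_eq, mem_preimage, mem_univ_pi, mem_Icc, KK, Pi.smul_apply,
      smul_eq_mul]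
    have e1 : T L N (al L N) (be L N) (xb L N) m (Fin.cons x v) = Aff L N m (x, r • v) := by
      unfold T Aff
      congr 1
      funext i
      refine Fin.cases ?_ (fun j => ?_) i
      · simp
      · simp only [Fin.cons_succ, Fin.cons_zero, Pi.smul_apply, smul_eq_mul]
        rw [← hrdef]; ring
    rw [e1]
    constructor
    · rintro ⟨h2, h3⟩
      refine ⟨⟨hx, fun j => ?_⟩, h2⟩
      rw [← hrdef, abs_mul, abs_of_pos hr0]
      have := h3 j
      have h4 : |v j| ≤ 1 := abs_le.2 ⟨this.1, this.2⟩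
      nlinarith
    · rintro ⟨⟨_, h3⟩, h2⟩
      refine ⟨h2, fun j => ?_⟩
      have h4 := h3 j
      rw [← hrdef, abs_mul, abs_of_pos hr0] at h4
      have h5 : |v j| ≤ 1 := by
        by_contra hc
        push Not at hc
        nlinarith
      exact abs_le.1 h5
  rw [h1, Measure.addHaar_preimage_smul _ hr0.ne']
  congr 2
  rw [abs_of_pos (by positivity)]
  simp

theorem PI_apply {m : ℕ} (hm : (m : ℝ) = N ^ 2) (S : Set (E (m + 1))) (hS : MeasurableSet S) :
    PI L N m S = ((1 / 2 : ℝ≥0∞) ^ m * ENNReal.ofReal (1 / Zp L N)) *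
      ∫⁻ p : ℝ × (Fin m → ℝ), (KK L N m ∩ Aff L N m ⁻¹' S).indicator
        (fun p => ENNReal.ofReal (exp ((N / L - 1) * p.1))) p := by
  have hp := (Pm_good hL hN).prob
  have hmp := mus_prob hL hN m
  have hTm := (T_cont L N (al L N) (be L N) (xb L N) m).measurable
  have hcc := continuous_cons m
  have hZ := Zp_pos hL hN
  -- left side
  have h1 : PI L N m S = ((Pm L N).prod (Um m))
      {z | T L N (al L N) (be L N) (xb L N) m (Fin.cons z.1 z.2) ∈ S} := by
    unfold PI
    rw [Measure.map_apply hTm hS]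
    have h := (measurePreserving_piFinSuccAbove (mus L N m) 0).symm
    have h2 := h.measure_preimage (hTm hS).nullMeasurableSet
    unfold mu0
    rw [← h2]
    simp only [MeasurableEquiv.piFinSuccAbove_symm_apply, Fin.insertNthEquiv_zero,
      Fin.zero_succAbove]
    rfl
  have hmeas : MeasurableSet {z : ℝ × (Fin m → ℝ) |
      T L N (al L N) (be L N) (xb L N) m (Fin.cons z.1 z.2) ∈ S} :=
    (((T_cont L N (al L N) (be L N) (xb L N) m).comp hcc).measurable) hS
  rw [h1, Measure.prod_apply hmeas]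
  have h2 : ∫⁻ x, Um m (Prod.mk x ⁻¹' {z : ℝ × (Fin m → ℝ) |
      T L N (al L N) (be L N) (xb L N) m (Fin.cons z.1 z.2) ∈ S}) ∂(Pm L N) =
      ∫⁻ x in Icc 0 L, ENNReal.ofReal (exp (-Vp L N x) / Zp L N) *
        Um m {v | T L N (al L N) (be L N) (xb L N) m (Fin.cons x v) ∈ S} := by
    have e0 : Pm L N = (volume.restrict (Icc 0 L)).tilted (fun x => -Vp L N x) := rfl
    rw [e0, lintegral_tilted]
    have e1 : ∫ x in Icc 0 L, exp (-Vp L N x) = Zp L N := set_eq_interval (by linarith) _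
    rw [e1]
    rfl
  rw [h2]
  have hKS : MeasurableSet (KK L N m ∩ Aff L N m ⁻¹' S) :=
    (KK_meas L N m).inter ((Aff_cont L N m).measurable hS)
  have hexpm : Measurable (fun p : ℝ × (Fin m → ℝ) => ENNReal.ofReal (exp ((N / L - 1) * p.1))) := by
    fun_prop
  rw [Measure.volume_eq_prod, lintegral_prod _ (hexpm.indicator hKS).aemeasurable,
    ← lintegral_const_mul' _ _ (by finiteness)]
  rw [← lintegral_indicator measurableSet_Icc]
  refine lintegral_congr fun x => ?_
  have h3 : ∫⁻ y : Fin m → ℝ, (KK L N m ∩ Aff L N m ⁻¹' S).indicator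
      (fun p => ENNReal.ofReal (exp ((N / L - 1) * p.1))) (x, y) =
      ENNReal.ofReal (exp ((N / L - 1) * x)) *
        volume {y : Fin m → ℝ | (x, y) ∈ KK L N m ∩ Aff L N m ⁻¹' S} := by
    have hms : MeasurableSet {y : Fin m → ℝ | (x, y) ∈ KK L N m ∩ Aff L N m ⁻¹' S} :=
      measurable_prodMk_left hKS
    rw [← lintegral_indicator_const hms]
    refine lintegral_congr fun y => ?_
    by_cases hy : (x, y) ∈ KK L N m ∩ Aff L N m ⁻¹' S
    · rw [indicator_of_mem hy, indicator_of_mem (by exact hy)]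
    · rw [indicator_of_notMem hy, indicator_of_notMem (by exact hy)]
  rw [h3]
  by_cases hx : x ∈ Icc 0 L
  · rw [indicator_of_mem hx, slice hL hN hx S]
    have hr := r_low hL hN hx
    have hr0 : 0 < 1 - x / (L * N) := by linarith
    have h4 : exp (-Vp L N x) / Zp L N * ((1 - x / (L * N)) ^ m)⁻¹ =
        1 / Zp L N * exp ((N / L - 1) * x) := by
      have h5 : exp (-Vp L N x) = exp ((N / L - 1) * x) * (1 - x / (L * N)) ^ m := by
        unfold Vp
        have h6 : -(x - N / L * x - N ^ 2 * log (1 - x / (L * N))) =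
            (N / L - 1) * x + m * log (1 - x / (L * N)) := by rw [hm]; ring
        rw [h6, exp_add, exp_nat_mul, exp_log hr0]
      have h6 : ∀ r e Z : ℝ, r ≠ 0 → Z ≠ 0 → e * r / Z * r⁻¹ = 1 / Z * e := by
        intro r e Z hr hZ
        field_simp
      rw [h5]
      exact h6 _ _ _ (by positivity) hZ.ne'
    set v := volume {y : Fin m → ℝ | (x, y) ∈ KK L N m ∩ Aff L N m ⁻¹' S} with hv
    calc ENNReal.ofReal (exp (-Vp L N x) / Zp L N) *
          ((1 / 2 : ℝ≥0∞) ^ m * (ENNReal.ofReal (((1 - x / (L * N)) ^ m)⁻¹) * v))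
        = (1 / 2 : ℝ≥0∞) ^ m * (ENNReal.ofReal (exp (-Vp L N x) / Zp L N) *
            ENNReal.ofReal (((1 - x / (L * N)) ^ m)⁻¹)) * v := by ring
      _ = (1 / 2 : ℝ≥0∞) ^ m * (ENNReal.ofReal (1 / Zp L N) *
            ENNReal.ofReal (exp ((N / L - 1) * x))) * v := by
          rw [← ENNReal.ofReal_mul (by positivity), h4, ENNReal.ofReal_mul (by positivity)]
      _ = _ := by ring
  · rw [indicator_of_notMem hx]
    have h5 : {y : Fin m → ℝ | (x, y) ∈ KK L N m ∩ Aff L N m ⁻¹' S} = ∅ := by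
      ext y
      simp only [mem_ofPred_eq, mem_empty_iff_false, iff_false]
      intro h
      exact hx h.1.1
    rw [h5]
    simp

theorem PI_logconc {m : ℕ} (hm : (m : ℝ) = N ^ 2) : LogConc (PI L N m) := by
  intro A B hA hB hAn hBn t ht0 ht1
  rcases eq_or_lt_of_le ht0 with h0 | h0
  · rw [← h0]
    simp only [ENNReal.rpow_zero, sub_zero, ENNReal.rpow_one, one_mul, one_smul]
    refine measure_mono ?_
    rw [zero_smul_set hAn, zero_add]
  rcases eq_or_lt_of_le ht1 with h1 | h1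
  · rw [h1]
    simp only [ENNReal.rpow_zero, sub_self, ENNReal.rpow_one, mul_one, one_smul]
    refine measure_mono ?_
    rw [zero_smul_set hBn, add_zero]
  have hD : IsCompact (t • A + (1 - t) • B) := (hA.smul t).add (hB.smul (1 - t))
  rw [PI_apply hL hN hm A hA.measurableSet, PI_apply hL hN hm B hB.measurableSet,
    PI_apply hL hN hm _ hD.measurableSet]
  set k : ℝ≥0∞ := (1 / 2 : ℝ≥0∞) ^ m * ENNReal.ofReal (1 / Zp L N) with hk
  have hZ := Zp_pos hL hN
  have hk0 : k ≠ 0 := by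
    rw [hk]
    refine mul_ne_zero ?_ ?_
    · simp
    · rw [Ne, ENNReal.ofReal_eq_zero, not_le]; positivity
  have hkt : k ≠ ⊤ := by
    rw [hk]; finiteness
  have hexpm : Measurable (fun p : ℝ × (Fin m → ℝ) => ENNReal.ofReal (exp ((N / L - 1) * p.1))) := by
    fun_prop
  have hKS : ∀ S : Set (E (m + 1)), IsCompact S → MeasurableSet (KK L N m ∩ Aff L N m ⁻¹' S) :=
    fun S hS => (KK_meas L N m).inter ((Aff_cont L N m).measurable hS.measurableSet)
  have hHaar : (volume : Measure (ℝ × (Fin m → ℝ))).IsAddHaarMeasure := by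
    rw [Measure.volume_eq_prod]; infer_instance
  have hPL := Pool.Agent.H212R2.KLS.PL (volume : Measure (ℝ × (Fin m → ℝ))) (1 - t)
    (by linarith) (by linarith)
    ((KK L N m ∩ Aff L N m ⁻¹' A).indicator (fun p => ENNReal.ofReal (exp ((N / L - 1) * p.1))))
    ((KK L N m ∩ Aff L N m ⁻¹' B).indicator (fun p => ENNReal.ofReal (exp ((N / L - 1) * p.1))))
    ((KK L N m ∩ Aff L N m ⁻¹' (t • A + (1 - t) • B)).indicator
      (fun p => ENNReal.ofReal (exp ((N / L - 1) * p.1))))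
    (hexpm.indicator (hKS A hA)) (hexpm.indicator (hKS B hB)) (hexpm.indicator (hKS _ hD)) ?_
  · rw [sub_sub_cancel] at hPL
    rw [ENNReal.mul_rpow_of_nonneg _ _ h0.le,
      ENNReal.mul_rpow_of_nonneg _ _ (show 0 ≤ 1 - t by linarith)]
    have hkk : k ^ t * k ^ (1 - t) = k := by
      rw [← ENNReal.rpow_add _ _ hk0 hkt]; simp
    calc _ = (k ^ t * k ^ (1 - t)) * ((∫⁻ p : ℝ × (Fin m → ℝ), (KK L N m ∩ Aff L N m ⁻¹' A).indicator
        (fun p => ENNReal.ofReal (exp ((N / L - 1) * p.1))) p) ^ t *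
        (∫⁻ p : ℝ × (Fin m → ℝ), (KK L N m ∩ Aff L N m ⁻¹' B).indicator
        (fun p => ENNReal.ofReal (exp ((N / L - 1) * p.1))) p) ^ (1 - t)) := by ring
      _ ≤ _ := by
        rw [hkk]
        gcongr
  · intro p q
    rw [sub_sub_cancel]
    by_cases hp : p ∈ KK L N m ∩ Aff L N m ⁻¹' A
    · by_cases hq : q ∈ KK L N m ∩ Aff L N m ⁻¹' B
      · have hpq : t • p + (1 - t) • q ∈ KK L N m ∩ Aff L N m ⁻¹' (t • A + (1 - t) • B) := by
          refine ⟨KK_comb L N m t (1 - t) h0.le (by linarith) (by ring) hp.1 hq.1, ?_⟩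
          rw [mem_preimage, Aff_comb L N m t (1 - t) (by ring)]
          exact Set.add_mem_add (Set.smul_mem_smul_set hp.2) (Set.smul_mem_smul_set hq.2)
        rw [indicator_of_mem hp, indicator_of_mem hq, indicator_of_mem hpq,
          ENNReal.ofReal_rpow_of_nonneg (exp_pos _).le h0.le,
          ENNReal.ofReal_rpow_of_nonneg (exp_pos _).le (by linarith),
          ← ENNReal.ofReal_mul (by positivity)]
        refine ENNReal.ofReal_le_ofReal (le_of_eq ?_)
        rw [← exp_mul, ← exp_mul, ← exp_add]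
        congr 1
        simp only [Prod.fst_add, Prod.smul_fst, smul_eq_mul]
        ring
      · rw [indicator_of_notMem hq, ENNReal.zero_rpow_of_pos (by linarith), mul_zero]
        exact zero_le
    · rw [indicator_of_notMem hp, ENNReal.zero_rpow_of_pos h0, zero_mul]
      exact zero_le

end

end Pool.Agent.X139.LS
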