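import Pool.Agent.X139.LS.Par3

/-!
# The map and the upper bound for the log-Sobolev constant
-/

set_option autoImplicit false

open MeasureTheory Set Real Filter Topology
open scoped ContDiff RealInnerProductSpace

namespace Pool.Agent.X139.LS

/-- the one-dimensional laws -/
noncomputable def mus (L N : ℝ) (m : ℕ) : Fin (m + 1) → Measure ℝ :=
  Fin.cons (Pm L N) (fun _ => Un)

/-- their supports -/
def sts (L : ℝ) (m : ℕ) : Fin (m + 1) → Set ℝ :=
  Fin.cons (Icc 0 L) (fun _ => Icc (-1) 1)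

/-- the product law -/
noncomputable def mu0 (L N : ℝ) (m : ℕ) : Measure (Fin (m + 1) → ℝ) := Measure.pi (mus L N m)

/-- the box -/
def Bx (L : ℝ) (m : ℕ) : Set (Fin (m + 1) → ℝ) := Set.univ.pi (sts L m)

theorem Bx_compact (L : ℝ) (m : ℕ) : IsCompact (Bx L m) := by
  refine isCompact_univ_pi fun i => ?_
  refine Fin.cases ?_ (fun j => ?_) i
  · exact isCompact_Icc
  · exact isCompact_Icc

theorem Bx_zero {L : ℝ} {m : ℕ} {s : Fin (m + 1) → ℝ} (hs : s ∈ Bx L m) : s 0 ∈ Icc 0 L :=
  hs 0 (mem_univ _)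

theorem Bx_succ {L : ℝ} {m : ℕ} {s : Fin (m + 1) → ℝ} (hs : s ∈ Bx L m) (i : Fin m) :
    s i.succ ∈ Icc (-1) 1 :=
  hs i.succ (mem_univ _)

/-- the map -/
noncomputable def T (L N α β c : ℝ) (m : ℕ) (s : Fin (m + 1) → ℝ) : E (m + 1) :=
  WithLp.toLp 2 (Fin.cons (α * (s 0 - c)) (fun i => β * (1 - s 0 / (L * N)) * s i.succ))

@[simp] theorem T_zero (L N α β c : ℝ) (m : ℕ) (s : Fin (m + 1) → ℝ) :
    T L N α β c m s 0 = α * (s 0 - c) := rfl

@[simp] theorem T_succ (L N α β c : ℝ) (m : ℕ) (s : Fin (m + 1) → ℝ) (i : Fin m) :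
    T L N α β c m s i.succ = β * (1 - s 0 / (L * N)) * s i.succ := rfl

theorem T_cont (L N α β c : ℝ) (m : ℕ) : Continuous (T L N α β c m) := by
  unfold T
  refine (PiLp.continuous_toLp 2 _).comp (continuous_pi fun i => ?_)
  refine Fin.cases ?_ (fun j => ?_) i
  · simp only [Fin.cons_zero]
    fun_prop
  · simp only [Fin.cons_succ]
    fun_prop

/-- partial derivatives of the map -/
noncomputable def dT (L N α β : ℝ) (m : ℕ) (s : Fin (m + 1) → ℝ) : Fin (m + 1) → E (m + 1) :=
  Fin.cons (WithLp.toLp 2 (Fin.cons α (fun i => β * (-(1 / (L * N))) * s i.succ)))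
    (fun k => (β * (1 - s 0 / (L * N))) • (EuclideanSpace.single k.succ (1:ℝ) : E (m + 1)))

theorem dT_cont (L N α β : ℝ) (m : ℕ) (i : Fin (m + 1)) :
    Continuous (fun s => dT L N α β m s i) := by
  refine Fin.cases ?_ (fun k => ?_) i
  · simp only [dT, Fin.cons_zero]
    refine (PiLp.continuous_toLp 2 _).comp (continuous_pi fun i => ?_)
    refine Fin.cases ?_ (fun j => ?_) i
    · simp only [Fin.cons_zero]
      fun_prop
    · simp only [Fin.cons_succ]
      fun_prop
  · simp only [dT, Fin.cons_succ]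
    fun_prop

theorem hasDeriv_toLp {n : ℕ} (g : ℝ → (Fin n → ℝ)) (g' : Fin n → ℝ) (t : ℝ)
    (h : ∀ j, HasDerivAt (fun r => g r j) (g' j) t) :
    HasDerivAt (fun r => (WithLp.toLp 2 (g r) : E n)) (WithLp.toLp 2 g') t := by
  have h1 : HasDerivAt g g' t := hasDerivAt_pi.2 h
  exact ((PiLp.continuousLinearEquiv 2 ℝ (fun _ : Fin n => ℝ)).symm.hasFDerivAt).comp_hasDerivAt t h1

theorem T_hasDeriv (L N α β c : ℝ) (m : ℕ) (i : Fin (m + 1)) (s : Fin (m + 1) → ℝ) :
    HasDerivAt (fun t => T L N α β c m (Function.update s i t)) (dT L N α β m s i) (s i) := by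
  refine Fin.cases ?_ (fun k => ?_) i
  · simp only [T, dT, Fin.cons_zero]
    refine hasDeriv_toLp _ _ _ fun j => ?_
    refine Fin.cases ?_ (fun j => ?_) j
    · simp only [Fin.cons_zero, Function.update_self]
      have := ((hasDerivAt_id (s 0)).sub_const c).const_mul α
      refine this.congr_deriv ?_
      ring
    · simp only [Fin.cons_succ, Function.update_self]
      have h0 : ∀ t, Function.update s 0 t j.succ = s j.succ := fun t =>
        Function.update_of_ne (Fin.succ_ne_zero j) _ _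
      simp only [h0]
      have := ((((hasDerivAt_id (s 0)).div_const (L * N)).const_sub 1).const_mul β).mul_const
        (s j.succ)
      exact this
  · have h0 : ∀ t, Function.update s k.succ t 0 = s 0 := fun t =>
      Function.update_of_ne (Fin.succ_ne_zero k).symm _ _
    have h1 : dT L N α β m s k.succ =
        WithLp.toLp 2 (fun j => (β * (1 - s 0 / (L * N))) * (if j = k.succ then 1 else 0)) := by
      simp only [dT, Fin.cons_succ]
      ext j
      simp [Pi.single_apply]
    rw [h1]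
    simp only [T, h0]
    refine hasDeriv_toLp _ _ _ fun j => ?_
    refine Fin.cases ?_ (fun j => ?_) j
    · simp only [Fin.cons_zero]
      rw [if_neg (Fin.succ_ne_zero k).symm, mul_zero]
      exact hasDerivAt_const _ _
    · simp only [Fin.cons_succ]
      by_cases hjk : j = k
      · subst hjk
        simp only [Function.update_self, if_true]
        have := (hasDerivAt_id (s j.succ)).const_mul (β * (1 - s 0 / (L * N)))
        exact this
      · have h2 : ∀ t, Function.update s k.succ t j.succ = s j.succ := fun t =>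
          Function.update_of_ne (fun h => hjk (Fin.succ_injective _ h)) _ _
        simp only [h2]
        rw [if_neg (fun h => hjk (Fin.succ_injective _ h)), mul_zero]
        exact hasDerivAt_const _ _

theorem inner_E {n : ℕ} (g v : E n) : ⟪g, v⟫ = ∑ j, g j * v j := by
  rw [PiLp.inner_apply]
  refine Finset.sum_congr rfl fun j _ => ?_
  simp [mul_comm]

theorem norm_E {n : ℕ} (g : E n) : ‖g‖ ^ 2 = ∑ j, g j ^ 2 := by
  rw [← real_inner_self_eq_norm_sq, inner_E]
  refine Finset.sum_congr rfl fun j _ => ?_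
  ring

/-- the sum of the squared partial derivatives in terms of the gradient -/
theorem grad_bound {L N α β : ℝ} {m : ℕ} (hL : 1 ≤ L) (hN : 2 ≤ N) (hm : (m : ℝ) = N ^ 2)
    (hα : α ^ 2 ≤ 250) (hβ : β ^ 2 ≤ 12) {s : Fin (m + 1) → ℝ} (hs : s ∈ Bx L m)
    (g : E (m + 1)) : ∑ i, ⟪g, dT L N α β m s i⟫ ^ 2 ≤ 500 * ‖g‖ ^ 2 := by
  have h0 := Bx_zero hs
  have h1 := r_low hL hN h0
  have hr1 : 1 - s 0 / (L * N) ≤ 1 := by
    have : 0 ≤ s 0 / (L * N) := by
      have := h0.1
      positivity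
    linarith
  rw [Fin.sum_univ_succ]
  have e0 : ⟪g, dT L N α β m s 0⟫ = α * g 0 + (-(β / (L * N))) * ∑ j : Fin m, g j.succ * s j.succ := by
    rw [inner_E, Fin.sum_univ_succ, Finset.mul_sum]
    simp only [dT, Fin.cons_zero, Fin.cons_succ]
    congr 1
    · ring
    · refine Finset.sum_congr rfl fun j _ => ?_
      ring
  have e1 : ∀ k : Fin m, ⟪g, dT L N α β m s k.succ⟫ = β * (1 - s 0 / (L * N)) * g k.succ := by
    intro k
    simp only [dT, Fin.cons_succ]
    rw [inner_smul_right, EuclideanSpace.inner_single_right]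
    simp
  rw [e0]
  simp only [e1]
  rw [norm_E, Fin.sum_univ_succ]
  set G := ∑ j : Fin m, g j.succ ^ 2 with hG
  have hG0 : 0 ≤ G := Finset.sum_nonneg fun _ _ => sq_nonneg _
  have hcs : (∑ j : Fin m, g j.succ * s j.succ) ^ 2 ≤ G * N ^ 2 := by
    refine (Finset.sum_mul_sq_le_sq_mul_sq _ _ _).trans ?_
    have : ∑ j : Fin m, s j.succ ^ 2 ≤ N ^ 2 := by
      rw [← hm]
      calc ∑ j : Fin m, s j.succ ^ 2 ≤ ∑ _j : Fin m, (1:ℝ) := by
            refine Finset.sum_le_sum fun j _ => ?_
            have := Bx_succ hs j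
            nlinarith [this.1, this.2]
        _ = m := by simp
    gcongr
  have e2 : ∑ k : Fin m, (β * (1 - s 0 / (L * N)) * g k.succ) ^ 2 ≤ 12 * G := by
    rw [hG, Finset.mul_sum]
    refine Finset.sum_le_sum fun k _ => ?_
    rw [mul_pow, mul_pow]
    have h3 : (1 - s 0 / (L * N)) ^ 2 ≤ 1 := by
      have : 0 ≤ 1 - s 0 / (L * N) := by linarith
      nlinarith
    have h4 : β ^ 2 * (1 - s 0 / (L * N)) ^ 2 ≤ 12 * 1 := by gcongr
    have := sq_nonneg (g k.succ)
    nlinarith
  have hN0 : 0 < N := by linarith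
  have hL0 : 0 < L := by linarith
  have e3 : ((-(β / (L * N))) * ∑ j : Fin m, g j.succ * s j.succ) ^ 2 ≤ 12 * G := by
    rw [mul_pow]
    have h5 : (-(β / (L * N))) ^ 2 * (∑ j : Fin m, g j.succ * s j.succ) ^ 2 ≤
        (-(β / (L * N))) ^ 2 * (G * N ^ 2) := by gcongr
    refine h5.trans ?_
    have h6 : (-(β / (L * N))) ^ 2 * (G * N ^ 2) = β ^ 2 / L ^ 2 * G := by
      field_simp
    rw [h6]
    have h7 : β ^ 2 / L ^ 2 ≤ 12 := by
      rw [div_le_iff₀ (by positivity)]
      have : 1 ≤ L ^ 2 := one_le_pow₀ hL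
      nlinarith
    gcongr
  set P := (-(β / (L * N))) * ∑ j : Fin m, g j.succ * s j.succ with hP
  have e4 : (α * g 0 + P) ^ 2 ≤ 2 * (α * g 0) ^ 2 + 2 * P ^ 2 := by
    nlinarith [sq_nonneg (α * g 0 - P)]
  have e5 : (α * g 0) ^ 2 ≤ 250 * g 0 ^ 2 := by
    rw [mul_pow]
    have := sq_nonneg (g 0)
    gcongr
  nlinarith

theorem mus_good {L N : ℝ} (hL : 1 ≤ L) (hN : 2 ≤ N) (m : ℕ) (i : Fin (m + 1)) :
    Good (mus L N m i) (sts L m i) (3 * L / 2) := by
  refine Fin.cases ?_ (fun j => ?_) i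
  · exact Pm_good hL hN
  · exact Un_good.mono (by linarith)

theorem mus_prob {L N : ℝ} (hL : 1 ≤ L) (hN : 2 ≤ N) (m : ℕ) (i : Fin (m + 1)) :
    IsProbabilityMeasure (mus L N m i) := (mus_good hL hN m i).prob

theorem mu0_prob {L N : ℝ} (hL : 1 ≤ L) (hN : 2 ≤ N) (m : ℕ) :
    IsProbabilityMeasure (mu0 L N m) := by
  have := mus_prob hL hN m
  unfold mu0
  infer_instance

theorem mu0_on {L N : ℝ} (hL : 1 ≤ L) (hN : 2 ≤ N) (m : ℕ) :
    (mu0 L N m).restrict (Bx L m) = mu0 L N m := by
  have := mus_prob hL hN m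
  exact pi_on (m + 1) _ _ fun i => (mus_good hL hN m i).on

theorem fderiv_eq_inner {n : ℕ} (f : E n → ℝ) (x v : E n) :
    fderiv ℝ f x v = ⟪gradient f x, v⟫ := by
  unfold gradient
  rw [InnerProductSpace.toDual_symm_apply]

theorem gradient_cont {n : ℕ} (f : E n → ℝ) (hf : ContDiff ℝ 1 f) :
    Continuous (fun x => gradient f x) := by
  unfold gradient
  exact ((InnerProductSpace.toDual ℝ (E n)).symm.continuous).comp (hf.continuous_fderiv (by norm_num))

theorem lsi_eps {L N α β : ℝ} {m : ℕ} (hL : 1 ≤ L) (hN : 2 ≤ N) (hm : (m : ℝ) = N ^ 2)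
    (hα : α ^ 2 ≤ 250) (hβ : β ^ 2 ≤ 12) (c : ℝ) (f : E (m + 1) → ℝ) (hf : ContDiff ℝ 1 f)
    (ε : ℝ) (hε : 0 < ε) :
    Ent (mu0 L N m) (fun s => f (T L N α β c m s) ^ 2 + ε) ≤
      3000 * L * ∫ s, ‖gradient f (T L N α β c m s)‖ ^ 2 ∂(mu0 L N m) := by
  have hprob := mus_prob hL hN m
  have hprob0 := mu0_prob hL hN m
  have hTc := T_cont L N α β c m
  have hgc := gradient_cont f hf
  have hfc := hf.continuous
  have hfd : Differentiable ℝ f := hf.differentiable (by norm_num)
  have h1 := pi_lsi (3 * L / 2) (m + 1) (mus L N m) (sts L m) (mus_good hL hN m)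
    (fun s => f (T L N α β c m s) ^ 2 + ε)
    (fun i s => 2 * f (T L N α β c m s) * ⟪gradient f (T L N α β c m s), dT L N α β m s i⟫)
    (by fun_prop)
    (fun i => by
      have := dT_cont L N α β m i
      have h2 := hgc.comp hTc
      have h3 : Continuous (fun s => ⟪gradient f (T L N α β c m s), dT L N α β m s i⟫) :=
        h2.inner this
      fun_prop)
    (fun i s => by
      have h2 := T_hasDeriv L N α β c m i s
      have h3 : HasFDerivAt f (fderiv ℝ f (T L N α β c m s)) (T L N α β c m s) :=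
        (hfd _).hasFDerivAt
      have h3' : HasFDerivAt f (fderiv ℝ f (T L N α β c m s))
          (T L N α β c m (Function.update s i (s i))) := by
        rw [Function.update_eq_self]; exact h3
      have h4 := h3'.comp_hasDerivAt (s i) h2
      have h5 := (h4.pow 2).add_const ε
      refine h5.congr_deriv ?_
      simp only [Function.comp, Function.update_eq_self]
      rw [fderiv_eq_inner]
      simp)
    (fun s => by positivity)
  change Ent (Measure.pi (mus L N m)) _ ≤ _
  refine h1.trans ?_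
  have h2 : ∫ s, ∑ i, (2 * f (T L N α β c m s) *
      ⟪gradient f (T L N α β c m s), dT L N α β m s i⟫) ^ 2 /
        (f (T L N α β c m s) ^ 2 + ε) ∂(Measure.pi (mus L N m)) ≤
      ∫ s, 2000 * ‖gradient f (T L N α β c m s)‖ ^ 2 ∂(Measure.pi (mus L N m)) := by
    refine int_mono_on _ (Bx_compact L m) (mu0_on hL hN m) _ _ ?_ ?_ ?_
    · refine continuous_finsetSum _ fun i _ => ?_
      have := dT_cont L N α β m i
      have h2 := hgc.comp hTc
      have h3 : Continuous (fun s => ⟪gradient f (T L N α β c m s), dT L N α β m s i⟫) :=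
        h2.inner this
      refine Continuous.div (by fun_prop) (by fun_prop) fun s => by positivity
    · have h2 := hgc.comp hTc
      exact continuous_const.mul (h2.norm.pow 2)
    · intro s hs
      have h3 := grad_bound hL hN hm hα hβ hs (gradient f (T L N α β c m s))
      have h4 : ∀ i, (2 * f (T L N α β c m s) *
          ⟪gradient f (T L N α β c m s), dT L N α β m s i⟫) ^ 2 /
          (f (T L N α β c m s) ^ 2 + ε) ≤
          4 * ⟪gradient f (T L N α β c m s), dT L N α β m s i⟫ ^ 2 := by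
        intro i
        rw [div_le_iff₀ (by positivity)]
        have := sq_nonneg ⟪gradient f (T L N α β c m s), dT L N α β m s i⟫
        nlinarith
      refine (Finset.sum_le_sum fun i _ => h4 i).trans ?_
      rw [← Finset.mul_sum]
      linarith
  rw [integral_const_mul] at h2
  have h5 := mul_le_mul_of_nonneg_left h2 (by positivity : 0 ≤ 3 * L / 2)
  refine h5.trans (le_of_eq ?_)
  unfold mu0
  ring

theorem lsi_zero {L N α β : ℝ} {m : ℕ} (hL : 1 ≤ L) (hN : 2 ≤ N) (hm : (m : ℝ) = N ^ 2)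
    (hα : α ^ 2 ≤ 250) (hβ : β ^ 2 ≤ 12) (c : ℝ) (f : E (m + 1) → ℝ) (hf : ContDiff ℝ 1 f) :
    Ent (mu0 L N m) (fun s => f (T L N α β c m s) ^ 2) ≤
      3000 * L * ∫ s, ‖gradient f (T L N α β c m s)‖ ^ 2 ∂(mu0 L N m) := by
  have hprob0 := mu0_prob hL hN m
  have hTc := T_cont L N α β c m
  have hfc := hf.continuous
  have hcomp := Bx_compact L m
  have hon := mu0_on hL hN m
  have hint : ∀ g : (Fin (m + 1) → ℝ) → ℝ, Continuous g → Integrable g (mu0 L N m) := fun g hg =>
    integrable_of_cont _ hcomp hon g hg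
  set Q : ℝ → ℝ := fun ε => Ent (mu0 L N m) (fun s => f (T L N α β c m s) ^ 2 + ε) with hQ
  have hQc : Continuous Q := by
    simp only [hQ, Ent]
    have h1 : Continuous (fun ε : ℝ => ∫ s, (f (T L N α β c m s) ^ 2 + ε) *
        log (f (T L N α β c m s) ^ 2 + ε) ∂(mu0 L N m)) := by
      have hj : Continuous (fun p : ℝ × (Fin (m + 1) → ℝ) => (f (T L N α β c m p.2) ^ 2 + p.1) *
          log (f (T L N α β c m p.2) ^ 2 + p.1)) := by
        have : Continuous (fun p : ℝ × (Fin (m + 1) → ℝ) => f (T L N α β c m p.2) ^ 2 + p.1) := by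
          fun_prop
        exact Real.continuous_mul_log.comp this
      have := continuous_parametric_integral_of_continuous (μ := mu0 L N m)
        (f := fun (ε : ℝ) (s : Fin (m + 1) → ℝ) => (f (T L N α β c m s) ^ 2 + ε) *
        log (f (T L N α β c m s) ^ 2 + ε)) hj hcomp
      rwa [hon] at this
    have h2 : ∀ ε : ℝ, ∫ s, (f (T L N α β c m s) ^ 2 + ε) ∂(mu0 L N m) =
        (∫ s, f (T L N α β c m s) ^ 2 ∂(mu0 L N m)) + ε := by
      intro ε
      rw [integral_add (hint _ (by fun_prop)) (hint _ (by fun_prop))]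
      simp
    simp only [h2]
    refine h1.sub ?_
    exact Real.continuous_mul_log.comp (continuous_const.add continuous_id)
  have h3 : Tendsto Q (𝓝[>] 0) (𝓝 (Q 0)) := (hQc.tendsto 0).mono_left nhdsWithin_le_nhds
  have h4 := le_of_tendsto h3 (b := 3000 * L * ∫ s, ‖gradient f (T L N α β c m s)‖ ^ 2 ∂(mu0 L N m))
    (by
      filter_upwards [self_mem_nhdsWithin] with ε hε
      exact lsi_eps hL hN hm hα hβ c f hf ε hε)
  simpa [hQ] using h4

end Pool.Agent.X139.LS
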