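import Pool.Agent.X139.LS.Basic

/-!
# Tensorization of the (Fisher form) log-Sobolev inequality on `Fin n → ℝ`
-/

set_option autoImplicit false

open MeasureTheory Set Real

namespace Pool.Agent.X139.LS

/-- compactly supported probability measure on the line with a log-Sobolev inequality in the
Fisher form -/
structure Good (μ : Measure ℝ) (s : Set ℝ) (A : ℝ) : Prop where
  prob : IsProbabilityMeasure μ
  comp : IsCompact s
  on : μ.restrict s = μ
  lsi : ∀ u u' : ℝ → ℝ, Continuous u' → (∀ x, HasDerivAt u (u' x) x) → (∀ x, 0 < u x) →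
    Ent μ u ≤ A * ∫ x, (u' x) ^ 2 / u x ∂μ

theorem int_cons (n : ℕ) (μ : Fin (n + 1) → Measure ℝ) [∀ i, IsProbabilityMeasure (μ i)]
    (f : (Fin (n + 1) → ℝ) → ℝ) :
    ∫ x, f x ∂(Measure.pi μ) =
      ∫ z : ℝ × (Fin n → ℝ), f (Fin.cons z.1 z.2) ∂((μ 0).prod (Measure.pi fun j => μ j.succ)) := by
  have h := (measurePreserving_piFinSuccAbove μ 0).symm
  have h2 := h.integral_comp' (g := f)
  rw [← h2]
  simp only [MeasurableEquiv.piFinSuccAbove_symm_apply, Fin.insertNthEquiv_zero, Fin.zero_succAbove]
  rfl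

theorem continuous_cons (n : ℕ) :
    Continuous (fun z : ℝ × (Fin n → ℝ) => (Fin.cons z.1 z.2 : Fin (n + 1) → ℝ)) := by
  refine continuous_pi fun i => ?_
  refine Fin.cases ?_ (fun j => ?_) i
  · simpa using continuous_fst
  · simp only [Fin.cons_succ]
    exact (continuous_apply j).comp continuous_snd

section par
variable {Y : Type*} [TopologicalSpace Y] [MeasurableSpace Y] [BorelSpace Y]
    [SecondCountableTopology Y] [LocallyCompactSpace Y] [T2Space Y]

theorem parY (ν : Measure Y) [IsProbabilityMeasure ν] {t : Set Y} (ht : IsCompact t)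
    (hν : ν.restrict t = ν) (f : ℝ × Y → ℝ) (hf : Continuous f) :
    Continuous (fun x => ∫ y, f (x, y) ∂ν) := by
  have := continuous_parametric_integral_of_continuous (μ := ν) (f := fun x y => f (x, y))
    hf ht
  rwa [hν] at this

theorem parX (μ : Measure ℝ) [IsProbabilityMeasure μ] {s : Set ℝ} (hs : IsCompact s)
    (hμ : μ.restrict s = μ) (f : ℝ × Y → ℝ) (hf : Continuous f) :
    Continuous (fun y => ∫ x, f (x, y) ∂μ) := by
  have := continuous_parametric_integral_of_continuous (μ := μ) (f := fun y x => f (x, y))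
    (hf.comp (continuous_snd.prodMk continuous_fst)) hs
  rwa [hμ] at this

end par

theorem pi_on (n : ℕ) (μ : Fin n → Measure ℝ) (s : Fin n → Set ℝ)
    [∀ i, IsProbabilityMeasure (μ i)] (h : ∀ i, (μ i).restrict (s i) = μ i) :
    (Measure.pi μ).restrict (Set.univ.pi s) = Measure.pi μ := by
  rw [Measure.restrict_pi_pi]
  congr 1
  funext i
  exact h i

theorem pi_lsi (A : ℝ) : ∀ (n : ℕ) (μ : Fin n → Measure ℝ) (s : Fin n → Set ℝ),
    (∀ i, Good (μ i) (s i) A) →
    ∀ (F : (Fin n → ℝ) → ℝ) (F' : Fin n → (Fin n → ℝ) → ℝ), Continuous F →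
    (∀ i, Continuous (F' i)) →
    (∀ i x, HasDerivAt (fun t => F (Function.update x i t)) (F' i x) (x i)) →
    (∀ x, 0 < F x) →
    Ent (Measure.pi μ) F ≤ A * ∫ x, ∑ i, (F' i x) ^ 2 / F x ∂(Measure.pi μ) := by
  intro n
  induction n with
  | zero =>
    intro μ s hG F F' hF hF' hd h0
    have : Measure.pi μ = Measure.dirac (fun i => i.elim0) := Measure.pi_of_empty μ _
    rw [this]
    unfold Ent
    simp
  | succ n ih =>
    intro μ s hG F F' hF hF' hd h0
    have : ∀ i, IsProbabilityMeasure (μ i) := fun i => (hG i).prob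
    set ν : Measure (Fin n → ℝ) := Measure.pi fun j => μ j.succ with hν
    set t : Set (Fin n → ℝ) := Set.univ.pi fun j => s j.succ with ht
    have htc : IsCompact t := isCompact_univ_pi fun i => (hG i.succ).comp
    have hνt : ν.restrict t = ν := pi_on n _ _ fun i => (hG i.succ).on
    have hμs := (hG 0).on
    have hsc := (hG 0).comp
    have hcc := continuous_cons n
    set H : ℝ × (Fin n → ℝ) → ℝ := fun z => F (Fin.cons z.1 z.2) with hH
    have hHc : Continuous H := hF.comp hcc
    have hH0 : ∀ z, 0 < H z := fun z => h0 _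
    have e1 : Ent (Measure.pi μ) F = Ent ((μ 0).prod ν) H := by
      unfold Ent
      rw [int_cons n μ (fun x => F x * log (F x)), int_cons n μ F]
    have e2 : ∫ x, ∑ i, (F' i x) ^ 2 / F x ∂(Measure.pi μ) =
        (∫ z, (F' 0 (Fin.cons z.1 z.2)) ^ 2 / H z ∂((μ 0).prod ν)) +
          ∫ z, ∑ i : Fin n, (F' i.succ (Fin.cons z.1 z.2)) ^ 2 / H z ∂((μ 0).prod ν) := by
      rw [int_cons n μ, ← integral_add]
      · simp only [Fin.sum_univ_succ]
        rfl
      · have hst : ((μ 0).prod ν).restrict ((s 0) ×ˢ t) = (μ 0).prod ν := by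
          rw [← Measure.prod_restrict, hμs, hνt]
        refine integrable_of_cont _ (hsc.prod htc) hst _ ?_
        exact (((hF' 0).comp hcc).pow 2).div hHc fun z => (hH0 z).ne'
      · have hst : ((μ 0).prod ν).restrict ((s 0) ×ˢ t) = (μ 0).prod ν := by
          rw [← Measure.prod_restrict, hμs, hνt]
        refine integrable_of_cont _ (hsc.prod htc) hst _ ?_
        refine continuous_finsetSum _ fun i _ => ?_
        exact (((hF' i.succ).comp hcc).pow 2).div hHc fun z => (hH0 z).ne'
    have hprod : ∀ f : ℝ × (Fin n → ℝ) → ℝ, Continuous f → Integrable f ((μ 0).prod ν) := by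
      intro f hf
      have hst : ((μ 0).prod ν).restrict ((s 0) ×ˢ t) = (μ 0).prod ν := by
        rw [← Measure.prod_restrict, hμs, hνt]
      exact integrable_of_cont _ (hsc.prod htc) hst f hf
    have hXi : ∀ f : ℝ → ℝ, Continuous f → Integrable f (μ 0) := fun f hf =>
      integrable_of_cont _ hsc hμs f hf
    have hYi : ∀ f : (Fin n → ℝ) → ℝ, Continuous f → Integrable f ν := fun f hf =>
      integrable_of_cont _ htc hνt f hf
    have hc0 : Continuous (fun z : ℝ × (Fin n → ℝ) => (F' 0 (Fin.cons z.1 z.2)) ^ 2 / H z) :=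
      (((hF' 0).comp hcc).pow 2).div hHc fun z => (hH0 z).ne'
    have hcs : Continuous (fun z : ℝ × (Fin n → ℝ) =>
        ∑ i : Fin n, (F' i.succ (Fin.cons z.1 z.2)) ^ 2 / H z) := by
      refine continuous_finsetSum _ fun i _ => ?_
      exact (((hF' i.succ).comp hcc).pow 2).div hHc fun z => (hH0 z).ne'
    have e3 := tensor (μ 0) ν hsc htc hμs hνt H hHc hH0
    have hposY : ∀ x, 0 < ∫ y, H (x, y) ∂ν := fun x =>
      int_pos ν _ (fun y => hH0 _) (hYi _ (hHc.comp (by fun_prop)))
    have hposX : ∀ y, 0 < ∫ x, H (x, y) ∂(μ 0) := fun y =>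
      int_pos (μ 0) _ (fun x => hH0 _) (hXi _ (hHc.comp (by fun_prop)))
    have e4 : (∫ x, Ent ν (fun y => H (x, y)) ∂(μ 0)) ≤
        A * ∫ z, ∑ i : Fin n, (F' i.succ (Fin.cons z.1 z.2)) ^ 2 / H z ∂((μ 0).prod ν) := by
      rw [integral_prod _ (hprod _ hcs), ← integral_const_mul]
      refine integral_mono ?_ ?_ ?_
      · refine hXi _ ?_
        unfold Ent
        exact (parY ν htc hνt (fun z => H z * log (H z)) (hlog H hHc hH0)).sub
          (hlog _ (parY ν htc hνt H hHc) hposY)
      · refine hXi _ ?_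
        exact (parY ν htc hνt _ hcs).const_mul A
      · intro x
        refine ih (fun j => μ j.succ) (fun j => s j.succ) (fun j => hG j.succ)
          (fun y => H (x, y)) (fun i y => F' i.succ (Fin.cons x y)) (hHc.comp (by fun_prop))
          (fun i => (hF' i.succ).comp (hcc.comp (continuous_const.prodMk continuous_id))) ?_
          (fun y => hH0 _)
        intro i y
        have := hd i.succ (Fin.cons x y)
        simp only [Fin.cons_succ] at this
        refine this.congr_of_eventuallyEq (Filter.Eventually.of_forall fun r => ?_)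
        simp only [hH]
        rw [Fin.cons_update]
    have e5 : (∫ y, Ent (μ 0) (fun x => H (x, y)) ∂ν) ≤
        A * ∫ z, (F' 0 (Fin.cons z.1 z.2)) ^ 2 / H z ∂((μ 0).prod ν) := by
      rw [integral_prod_symm _ (hprod _ hc0), ← integral_const_mul]
      refine integral_mono ?_ ?_ ?_
      · refine hYi _ ?_
        unfold Ent
        exact (parX (μ 0) hsc hμs (fun z => H z * log (H z)) (hlog H hHc hH0)).sub
          (hlog _ (parX (μ 0) hsc hμs H hHc) hposX)
      · refine hYi _ ?_
        exact (parX (μ 0) hsc hμs _ hc0).const_mul A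
      · intro y
        refine (hG 0).lsi (fun x => H (x, y)) (fun x => F' 0 (Fin.cons x y))
          ((hF' 0).comp (hcc.comp (continuous_id.prodMk continuous_const))) ?_ (fun x => hH0 _)
        intro x
        have := hd 0 (Fin.cons x y)
        simp only [Fin.cons_zero] at this
        refine this.congr_of_eventuallyEq (Filter.Eventually.of_forall fun r => ?_)
        simp only [hH]
        rw [Fin.update_cons_zero]
    rw [e1, e2, mul_add]
    linarith

end Pool.Agent.X139.LS
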