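import Pool.Agent.X139.LS.Tr
import Pool.Agent.X139.LS.PiT

/-!
# Log-Sobolev inequality for the measures with density `exp (-V)` on an interval
-/

set_option autoImplicit false

open MeasureTheory Set Real Filter Topology

namespace Pool.Agent.X139.LS

/-- probability measure on `[c,d]` with density proportional to `exp (-V)` -/
noncomputable def TM (c d : ℝ) (V : ℝ → ℝ) : Measure ℝ :=
  (volume.restrict (Icc c d)).tilted (fun x => -V x)

theorem set_eq_interval {c d : ℝ} (hcd : c ≤ d) (g : ℝ → ℝ) :
    ∫ x in Icc c d, g x = ∫ x in c..d, g x := by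
  rw [intervalIntegral.integral_of_le hcd, integral_Icc_eq_integral_Ioc]

theorem TM_integral {c d : ℝ} (hcd : c ≤ d) (V g : ℝ → ℝ) :
    ∫ x, g x ∂(TM c d V) = (∫ x in c..d, g x * exp (-V x)) / ∫ x in c..d, exp (-V x) := by
  unfold TM
  rw [integral_tilted, set_eq_interval hcd, set_eq_interval hcd, ← intervalIntegral.integral_div]
  refine intervalIntegral.integral_congr fun x _ => ?_
  simp only [smul_eq_mul]
  ring

theorem TM_prob {c d : ℝ} (hcd : c < d) (V : ℝ → ℝ) (hV : ContinuousOn V (Icc c d)) :
    IsProbabilityMeasure (TM c d V) := by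
  unfold TM
  have : NeZero (volume.restrict (Icc c d)) := by
    refine ⟨fun h => ?_⟩
    rw [Measure.restrict_eq_zero, Real.volume_Icc, ENNReal.ofReal_eq_zero] at h
    linarith
  refine isProbabilityMeasure_tilted ?_
  exact (Real.continuous_exp.comp_continuousOn hV.neg).integrableOn_compact isCompact_Icc

theorem TM_on {c d : ℝ} (V : ℝ → ℝ) : (TM c d V).restrict (Icc c d) = TM c d V := by
  refine Measure.restrict_eq_self_of_ae_mem ?_
  have h1 : TM c d V ≪ volume.restrict (Icc c d) := tilted_absolutelyContinuous _ _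
  exact h1.ae_le (ae_restrict_mem measurableSet_Icc)

theorem Z_pos {c d : ℝ} (hcd : c < d) (V : ℝ → ℝ) (hV : ContinuousOn V (Icc c d)) :
    0 < ∫ x in c..d, exp (-V x) := by
  refine intervalIntegral.intervalIntegral_pos_of_pos_on ?_ (fun x _ => exp_pos _) hcd
  refine ContinuousOn.intervalIntegrable ?_
  rw [uIcc_of_le hcd.le]
  exact Real.continuous_exp.comp_continuousOn hV.neg

theorem good_of_map {a b : ℝ} (hab : a < b) (φ φ' V W' : ℝ → ℝ) (M c d : ℝ) (hM0 : 0 ≤ M)
    (hcd : c < d)
    (hca : φ a = c) (hdb : φ b = d)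
    (hφ : ∀ s ∈ Icc a b, HasDerivAt φ (φ' s) s) (hφc : ContinuousOn φ' (Icc a b))
    (hφ0 : ∀ s ∈ Icc a b, 0 < φ' s) (hM : ∀ s ∈ Icc a b, φ' s ≤ M)
    (hV : ContinuousOn V (Icc c d))
    (hW' : ∀ s ∈ Ioo a b, HasDerivAt (fun s => V (φ s) - log (φ' s)) (W' s) s)
    (hconv : ∀ x ∈ Ioo a b, ∀ y ∈ Icc a b, (V (φ x) - log (φ' x)) + W' x * (y - x) +
      (y - x) ^ 2 / 2 ≤ V (φ y) - log (φ' y)) :
    Good (TM c d V) (Icc c d) (M ^ 2 / 2) := by
  refine ⟨TM_prob hcd V hV, isCompact_Icc, TM_on V, ?_⟩
  intro u u' hu'c hu hu0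
  have huc : Continuous u := continuous_iff_continuousAt.2 fun x => (hu x).continuousAt
  have hφcont : ContinuousOn φ (Icc a b) := fun s hs => (hφ s hs).continuousAt.continuousWithinAt
  have hφmono : MonotoneOn φ (Icc a b) := by
    refine monotoneOn_of_deriv_nonneg (convex_Icc a b) hφcont ?_ ?_
    · rw [interior_Icc]
      exact fun s hs => (hφ s (Ioo_subset_Icc_self hs)).differentiableAt.differentiableWithinAt
    · rw [interior_Icc]
      intro s hs
      rw [(hφ s (Ioo_subset_Icc_self hs)).deriv]
      exact (hφ0 s (Ioo_subset_Icc_self hs)).le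
  have hmaps : ∀ s ∈ Icc a b, φ s ∈ Icc c d := by
    intro s hs
    rw [← hca, ← hdb]
    exact ⟨hφmono (left_mem_Icc.2 hab.le) hs hs.1, hφmono hs (right_mem_Icc.2 hab.le) hs.2⟩
  have hIab : uIcc a b = Icc a b := uIcc_of_le hab.le
  have hcv : ∀ h : ℝ → ℝ, ContinuousOn h (Icc c d) →
      ∫ s in a..b, h (φ s) * φ' s = ∫ x in c..d, h x := by
    intro h hh
    have := intervalIntegral.integral_comp_mul_deriv' (f := φ) (f' := φ') (g := h) (a := a) (b := b)
      (by rw [hIab]; exact hφ) (by rw [hIab]; exact hφc) (by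
        rw [hIab]
        exact hh.mono (by rintro _ ⟨s, hs, rfl⟩; exact hmaps s hs))
    rw [hca, hdb] at this
    exact this
  set Z := ∫ x in c..d, exp (-V x) with hZ
  have hZ0 : 0 < Z := Z_pos hcd V hV
  have hexpV : ContinuousOn (fun x => exp (-V x)) (Icc c d) :=
    Real.continuous_exp.comp_continuousOn hV.neg
  set S := ∫ x in c..d, u x * exp (-V x) with hS
  have hS0 : 0 < S := by
    refine intervalIntegral.intervalIntegral_pos_of_pos_on ?_
      (fun x _ => mul_pos (hu0 x) (exp_pos _)) hcd
    refine ContinuousOn.intervalIntegrable ?_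
    rw [uIcc_of_le hcd.le]
    exact huc.continuousOn.mul hexpV
  have hW : ∀ s ∈ Icc a b, exp (-(V (φ s) - log (φ' s))) = exp (-V (φ s)) * φ' s := by
    intro s hs
    rw [neg_sub, sub_eq_add_neg, exp_add, exp_log (hφ0 s hs), mul_comm]
  -- apply the transport inequality to `v = u ∘ φ * Z / S`
  set r := Z / S with hr
  have hr0 : 0 < r := by positivity
  have hmain := transport_lsi hab (fun s => V (φ s) - log (φ' s)) W' (fun s => r * u (φ s))
    (fun s => r * (u' (φ s) * φ' s))
    ((hV.comp hφcont hmaps).sub (hφc.log fun s hs => (hφ0 s hs).ne')) hW' hconv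
    ((huc.comp_continuousOn hφcont).const_smul r |>.congr fun s _ => rfl)
    (fun s hs => ((hu (φ s)).comp s (hφ s (Ioo_subset_Icc_self hs))).const_mul r)
    (((hu'c.comp_continuousOn hφcont).mul hφc).const_smul r |>.congr fun s _ => rfl)
    (fun s hs => mul_pos hr0 (hu0 _)) ?_
  · have l1 : ∫ s in a..b, r * u (φ s) * log (r * u (φ s)) * exp (-(V (φ s) - log (φ' s))) =
        ∫ x in c..d, r * u x * log (r * u x) * exp (-V x) := by
      rw [← hcv (fun x => r * u x * log (r * u x) * exp (-V x))]
      · refine intervalIntegral.integral_congr fun s hs => ?_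
        rw [hIab] at hs
        try simp only
        rw [hW s hs]
        ring
      · refine ContinuousOn.mul ?_ hexpV
        have h1 : Continuous (fun x => r * u x) := huc.const_mul r |>.congr fun x => rfl
        exact (hlog _ h1 fun x => mul_pos hr0 (hu0 x)).continuousOn
    have hcu : ContinuousOn (fun x => (u' x) ^ 2 / u x * exp (-V x)) (Icc c d) :=
      (((hu'c.pow 2).div huc fun x => (hu0 x).ne').continuousOn).mul hexpV
    have l2 : ∫ s in a..b, (r * (u' (φ s) * φ' s)) ^ 2 / (2 * (r * u (φ s))) *
        exp (-(V (φ s) - log (φ' s))) ≤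
        M ^ 2 / 2 * r * ∫ x in c..d, (u' x) ^ 2 / u x * exp (-V x) := by
      rw [← hcv _ hcu, ← intervalIntegral.integral_const_mul]
      refine intervalIntegral.integral_mono_on hab.le ?_ ?_ ?_
      · refine ContinuousOn.intervalIntegrable ?_
        rw [hIab]
        refine ContinuousOn.mul ?_ ?_
        · refine ContinuousOn.div ?_ ?_ ?_
          · exact ((continuousOn_const.mul ((hu'c.comp_continuousOn hφcont).mul hφc)).pow 2)
          · exact continuousOn_const.mul (continuousOn_const.mul (huc.comp_continuousOn hφcont))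
          · intro s hs
            have := hu0 (φ s)
            positivity
        · exact Real.continuous_exp.comp_continuousOn
            ((hV.comp hφcont hmaps).sub (hφc.log fun s hs => (hφ0 s hs).ne')).neg
      · refine ContinuousOn.intervalIntegrable ?_
        rw [hIab]
        exact continuousOn_const.mul ((hcu.comp hφcont hmaps).mul hφc)
      · intro s hs
        rw [hW s hs]
        have h1 := hφ0 s hs
        have h2 := hM s hs
        have h3 := hu0 (φ s)
        have h4 := exp_pos (-V (φ s))
        have h5 : (r * (u' (φ s) * φ' s)) ^ 2 / (2 * (r * u (φ s))) *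
            (exp (-V (φ s)) * φ' s) =
            (φ' s) ^ 2 * (r / 2 * ((u' (φ s)) ^ 2 / u (φ s) * exp (-V (φ s)) * φ' s)) := by
          field_simp
        have h6 : M ^ 2 / 2 * r * ((u' (φ s)) ^ 2 / u (φ s) * exp (-V (φ s)) * φ' s) =
            M ^ 2 * (r / 2 * ((u' (φ s)) ^ 2 / u (φ s) * exp (-V (φ s)) * φ' s)) := by
          ring
        rw [h5]
        refine le_trans ?_ h6.symm.le
        refine mul_le_mul_of_nonneg_right ?_ (by positivity)
        gcongr
    rw [l1] at hmain
    have hfin := hmain.trans l2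
    -- rewrite the left side
    have h7 : ∫ x in c..d, r * u x * log (r * u x) * exp (-V x) =
        r * (∫ x in c..d, u x * log (u x) * exp (-V x)) + r * log r * S := by
      rw [hS, ← intervalIntegral.integral_const_mul, ← intervalIntegral.integral_const_mul,
        ← intervalIntegral.integral_add]
      · refine intervalIntegral.integral_congr fun x _ => ?_
        try simp only
        rw [log_mul hr0.ne' (hu0 x).ne']
        ring
      · refine ContinuousOn.intervalIntegrable ?_
        rw [uIcc_of_le hcd.le]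
        exact continuousOn_const.mul ((hlog u huc hu0).continuousOn.mul hexpV)
      · refine ContinuousOn.intervalIntegrable ?_
        rw [uIcc_of_le hcd.le]
        exact continuousOn_const.mul (huc.continuousOn.mul hexpV)
    rw [h7] at hfin
    unfold Ent
    rw [TM_integral hcd.le, TM_integral hcd.le, TM_integral hcd.le, ← hZ, ← hS]
    have h8 : log (S / Z) = -log r := by
      rw [hr, log_div hS0.ne' hZ0.ne', log_div hZ0.ne' hS0.ne']
      ring
    rw [h8]
    set I1 := ∫ x in c..d, u x * log (u x) * exp (-V x)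
    set I2 := ∫ x in c..d, (u' x) ^ 2 / u x * exp (-V x)
    have h9 : I1 + log r * S ≤ M ^ 2 / 2 * I2 := by
      have : r * (I1 + log r * S) ≤ r * (M ^ 2 / 2 * I2) := by linarith
      exact le_of_mul_le_mul_left this hr0
    have h10 : I1 / Z - S / Z * -log r = (I1 + log r * S) / Z := by ring
    rw [h10, ← mul_div_assoc]
    gcongr
  · -- normalisation
    have k1 : ∫ s in a..b, r * u (φ s) * exp (-(V (φ s) - log (φ' s))) = r * S := by
      rw [hS, ← hcv (fun x => u x * exp (-V x)) (huc.continuousOn.mul hexpV),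
        ← intervalIntegral.integral_const_mul]
      refine intervalIntegral.integral_congr fun s hs => ?_
      rw [hIab] at hs
      try simp only
      rw [hW s hs]
      ring
    have k2 : ∫ s in a..b, exp (-(V (φ s) - log (φ' s))) = Z := by
      rw [hZ, ← hcv (fun x => exp (-V x)) hexpV]
      refine intervalIntegral.integral_congr fun s hs => ?_
      rw [hIab] at hs
      try simp only
      rw [hW s hs]
    rw [k1, k2, hr]
    field_simp

end Pool.Agent.X139.LS
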