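import Pool.Agent.X139.LS.OneD

/-!
# The two one-dimensional laws of the example
-/

set_option autoImplicit false

open MeasureTheory Set Real Filter Topology

namespace Pool.Agent.X139.LS

theorem Good.mono {μ : Measure ℝ} {s : Set ℝ} {A B : ℝ} (h : Good μ s A) (hAB : A ≤ B) :
    Good μ s B := by
  refine ⟨h.prob, h.comp, h.on, fun u u' hc hd h0 => (h.lsi u u' hc hd h0).trans ?_⟩
  refine mul_le_mul_of_nonneg_right hAB (integral_nonneg fun x => ?_)
  have := h0 x
  positivity

/-- the uniform law on `[-1,1]` -/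
noncomputable def Un : Measure ℝ := TM (-1) 1 (fun _ => 0)

theorem Un_good : Good Un (Icc (-1) 1) (3 / 2) := by
  set k : ℝ → ℝ := fun r => exp (-(r ^ 2 / 2)) with hk
  have hkc : Continuous k := by fun_prop
  set G : ℝ := ∫ r in (0:ℝ)..1, k r with hG
  have hGlow : exp (-(1 / 2)) ≤ G := by
    have h1 : ∫ r in (0:ℝ)..1, exp (-(1 / 2) : ℝ) ≤ G := by
      refine intervalIntegral.integral_mono_on (by norm_num) (by simp) (hkc.intervalIntegrable _ _) ?_
      intro x hx
      simp only [hk]
      rw [exp_le_exp]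
      nlinarith [hx.1, hx.2]
    simpa using h1
  have hG0 : 0 < G := lt_of_lt_of_le (exp_pos _) hGlow
  have hneg : ∫ r in (0:ℝ)..(-1), k r = -G := by
    have h1 : ∫ r in (0:ℝ)..1, k (-r) = ∫ r in (-1:ℝ)..(-0), k r :=
      intervalIntegral.integral_comp_neg k
    have h2 : ∀ r, k (-r) = k r := by intro r; simp only [hk]; ring_nf
    simp only [h2, neg_zero] at h1
    rw [intervalIntegral.integral_symm, ← h1]
  have hd : ∀ s, HasDerivAt (fun s => (∫ r in (0:ℝ)..s, k r) / G) (k s / G) s := fun s =>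
    ((hkc.integral_hasStrictDerivAt 0 s).hasDerivAt).div_const G
  have hlogk : ∀ s, log (k s / G) = -(s ^ 2 / 2) - log G := by
    intro s
    rw [log_div (exp_pos _).ne' hG0.ne']
    simp only [hk, log_exp]
  have key := good_of_map (a := -1) (b := 1) (by norm_num)
    (fun s => (∫ r in (0:ℝ)..s, k r) / G) (fun s => k s / G) (fun _ => 0) (fun s => s) (1 / G)
    (-1) 1 (by positivity) (by norm_num) (by simp only [hneg]; field_simp)
    (by rw [← hG]; field_simp) (fun s _ => hd s) (hkc.div_const G).continuousOn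
    (fun s _ => by have : 0 < k s := exp_pos _
                   positivity)
    (fun s _ => by
      have : k s ≤ 1 := by
        simp only [hk]
        rw [← exp_zero, exp_le_exp]
        nlinarith [sq_nonneg s]
      gcongr) continuousOn_const ?_ ?_
  · refine key.mono ?_
    have h1 : (1 / G) ≤ exp (1 / 2) := by
      rw [div_le_iff₀ hG0]
      calc (1:ℝ) = exp (1 / 2) * exp (-(1 / 2)) := by rw [← exp_add]; norm_num
        _ ≤ exp (1 / 2) * G := by gcongr
    have h2 : (1 / G) ^ 2 ≤ exp (1 / 2) ^ 2 := by gcongr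
    have h3 : exp (1 / 2 : ℝ) ^ 2 = exp 1 := by
      rw [← exp_nat_mul]; norm_num
    have h4 := exp_one_lt_d9
    rw [h3] at h2
    linarith
  · intro s _
    simp only [hlogk]
    have := (((hasDerivAt_id s).pow 2).div_const 2).neg.sub_const (log G)
    have h2 := this.const_sub 0
    refine h2.congr_deriv ?_
    simp
  · intro x _ y _
    rw [hlogk, hlogk]
    nlinarith

/-- potential of the first law: `x - (N/L) x - N² log (1 - x/(LN))` -/
noncomputable def Vp (L N : ℝ) (x : ℝ) : ℝ := x - N / L * x - N ^ 2 * log (1 - x / (L * N))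

/-- its derivative -/
noncomputable def Vp' (L N : ℝ) (x : ℝ) : ℝ := 1 - N / L + N / L / (1 - x / (L * N))

section
variable {L N : ℝ} (hL : 1 ≤ L) (hN : 2 ≤ N)

include hL hN in
theorem r_low {x : ℝ} (hx : x ∈ Icc 0 L) : 1 / 2 ≤ 1 - x / (L * N) := by
  have h1 : x / (L * N) ≤ 1 / 2 := by
    rw [div_le_div_iff₀ (by positivity) (by norm_num)]
    nlinarith [hx.2, hx.1]
  linarith

include hL hN in
theorem Vp_hasDeriv {x : ℝ} (hx : x ∈ Icc 0 L) : HasDerivAt (Vp L N) (Vp' L N x) x := by
  have hr := r_low hL hN hx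
  have hr0 : 1 - x / (L * N) ≠ 0 := by linarith
  have h1 : HasDerivAt (fun x : ℝ => 1 - x / (L * N)) (-(1 / (L * N))) x := by
    have := ((hasDerivAt_id x).div_const (L * N)).const_sub 1
    exact this
  have h2 : HasDerivAt (fun x => x - N / L * x - N ^ 2 * log (1 - x / (L * N)))
      (1 - N / L * 1 - N ^ 2 * (-(1 / (L * N)) / (1 - x / (L * N)))) x :=
    ((hasDerivAt_id x).sub ((hasDerivAt_id x).const_mul (N / L))).sub
      ((h1.log hr0).const_mul (N ^ 2))
  refine h2.congr_deriv ?_
  unfold Vp'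
  have hL0 : L ≠ 0 := by linarith
  have hN0 : N ≠ 0 := by linarith
  field_simp
  ring

include hL hN in
theorem Vp'_ge {x : ℝ} (hx : x ∈ Icc 0 L) : 1 ≤ Vp' L N x := by
  have hr := r_low hL hN hx
  unfold Vp'
  have h1 : N / L ≤ N / L / (1 - x / (L * N)) := by
    rw [le_div_iff₀ (by linarith)]
    have h2 : 0 ≤ N / L := by positivity
    have h3 : 1 - x / (L * N) ≤ 1 := by
      have : 0 ≤ x / (L * N) := by
        have := hx.1
        positivity
      linarith
    nlinarith
  linarith

include hL hN in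
theorem Vp_tangent {x y : ℝ} (hx : x ∈ Icc 0 L) (hy : y ∈ Icc 0 L) :
    Vp L N x + Vp' L N x * (y - x) ≤ Vp L N y := by
  have hrx := r_low hL hN hx
  have hry := r_low hL hN hy
  have h1 : log ((1 - y / (L * N)) / (1 - x / (L * N))) ≤
      (1 - y / (L * N)) / (1 - x / (L * N)) - 1 := log_le_sub_one_of_pos (by positivity)
  rw [log_div (by linarith) (by linarith)] at h1
  have hL0 : 0 < L := by linarith
  have hN0 : 0 < N := by linarith
  have h2 : (1 - y / (L * N)) / (1 - x / (L * N)) - 1 =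
      -((y - x) / (L * N)) / (1 - x / (L * N)) := by
    rw [div_sub_one (by linarith)]
    congr 1
    ring
  rw [h2] at h1
  have h3 : N ^ 2 * (-((y - x) / (L * N)) / (1 - x / (L * N))) =
      -(N / L / (1 - x / (L * N)) * (y - x)) := by
    field_simp
  have h4 := mul_le_mul_of_nonneg_left h1 (by positivity : (0:ℝ) ≤ N ^ 2)
  rw [h3] at h4
  unfold Vp Vp'
  nlinarith

include hL hN in
theorem Vp_lower {x : ℝ} (hx : x ∈ Icc 0 L) : x ≤ Vp L N x := by
  have hr := r_low hL hN hx
  have h1 : log (1 - x / (L * N)) ≤ (1 - x / (L * N)) - 1 := log_le_sub_one_of_pos (by linarith)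
  have hL0 : 0 < L := by linarith
  have hN0 : 0 < N := by linarith
  have h2 := mul_le_mul_of_nonneg_left h1 (by positivity : (0:ℝ) ≤ N ^ 2)
  have h3 : N ^ 2 * ((1 - x / (L * N)) - 1) = -(N / L * x) := by
    field_simp
    ring
  rw [h3] at h2
  unfold Vp
  linarith

include hL hN in
theorem Vp_upper {x : ℝ} (hx : x ∈ Icc 0 L) : Vp L N x ≤ x + 2 := by
  have hr := r_low hL hN hx
  have hL0 : 0 < L := by linarith
  have hN0 : 0 < N := by linarith
  set r := 1 - x / (L * N) with hrdef
  have h1 : log r⁻¹ ≤ r⁻¹ - 1 := log_le_sub_one_of_pos (by positivity)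
  rw [log_inv] at h1
  have h2 : r⁻¹ - 1 = x / (L * N) / r := by
    have e : x / (L * N) = 1 - r := by rw [hrdef]; ring
    rw [e]
    have : r ≠ 0 := by linarith
    field_simp
  have h3 : x / (L * N) / r ≤ x / (L * N) + 2 * (x / (L * N)) ^ 2 := by
    have hx0 : 0 ≤ x / (L * N) := by
      have := hx.1
      positivity
    rw [div_le_iff₀ (by linarith)]
    have : r = 1 - x / (L * N) := hrdef
    nlinarith [mul_nonneg hx0 hx0, mul_nonneg (mul_nonneg hx0 hx0) (by linarith : 0 ≤ 2 * r - 1)]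
  have h4 : -log r ≤ x / (L * N) + 2 * (x / (L * N)) ^ 2 := by linarith
  have h5 := mul_le_mul_of_nonneg_left h4 (by positivity : (0:ℝ) ≤ N ^ 2)
  have h6 : N ^ 2 * (x / (L * N) + 2 * (x / (L * N)) ^ 2) = N / L * x + 2 * (x / L) ^ 2 := by
    field_simp
  have h7 : (x / L) ^ 2 ≤ 1 := by
    have h8 : x / L ≤ 1 := by
      rw [div_le_one hL0]; exact hx.2
    have h9 : 0 ≤ x / L := by
      have := hx.1
      positivity
    nlinarith
  rw [h6] at h5
  unfold Vp
  linarith

include hL hN in
theorem Vp_contOn : ContinuousOn (Vp L N) (Icc 0 L) := fun _ hx =>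
  (Vp_hasDeriv hL hN hx).continuousAt.continuousWithinAt

/-- the first law -/
noncomputable def Pm (L N : ℝ) : Measure ℝ := TM 0 L (Vp L N)

include hL hN in
theorem Pm_good : Good (Pm L N) (Icc 0 L) (3 * L / 2) := by
  set S : ℝ := √(2 * L + 1) with hS
  have hSsq : S ^ 2 = 2 * L + 1 := Real.sq_sqrt (by linarith)
  have hS1 : 1 < S := by
    rw [hS]
    rw [Real.lt_sqrt (by norm_num)]
    linarith
  have hmap : ∀ s ∈ Icc 1 S, (s ^ 2 - 1) / 2 ∈ Icc 0 L := by
    intro s hs
    constructor
    · nlinarith [hs.1]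
    · nlinarith [hs.1, hs.2]
  have hd : ∀ s : ℝ, HasDerivAt (fun s : ℝ => (s ^ 2 - 1) / 2) s s := by
    intro s
    have := (((hasDerivAt_id s).pow 2).sub_const 1).div_const 2
    refine this.congr_deriv ?_
    simp
  have key := good_of_map (a := 1) (b := S) hS1 (fun s => (s ^ 2 - 1) / 2) (fun s => s)
    (Vp L N) (fun s => Vp' L N ((s ^ 2 - 1) / 2) * s - 1 / s) S 0 L (by linarith) (by linarith)
    (by norm_num) (by rw [hSsq]; ring) (fun s _ => hd s) continuousOn_id
    (fun s hs => by linarith [hs.1]) (fun s hs => hs.2) (Vp_contOn hL hN) ?_ ?_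
  · refine key.mono ?_
    rw [hSsq]
    linarith
  · intro s hs
    have hsI : s ∈ Icc 1 S := Ioo_subset_Icc_self hs
    have h1 := (Vp_hasDeriv hL hN (hmap s hsI)).comp s (hd s)
    have h2 := Real.hasDerivAt_log (show s ≠ 0 by linarith [hs.1])
    refine (h1.sub h2).congr_deriv ?_
    rw [one_div]
  · intro x hx y hy
    have hxI : x ∈ Icc 1 S := Ioo_subset_Icc_self hx
    have h1 := Vp_tangent hL hN (hmap x hxI) (hmap y hy)
    have h2 := Vp'_ge hL hN (hmap x hxI)
    have hx0 : 0 < x := by linarith [hx.1]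
    have hy0 : 0 < y := by linarith [hy.1]
    have h3 : log (y / x) ≤ y / x - 1 := log_le_sub_one_of_pos (by positivity)
    rw [log_div hy0.ne' hx0.ne'] at h3
    have h4 : y / x - 1 = 1 / x * (y - x) := by
      field_simp
    rw [h4] at h3
    have h5 : (y ^ 2 - 1) / 2 - (x ^ 2 - 1) / 2 = x * (y - x) + (y - x) ^ 2 / 2 := by ring
    rw [h5] at h1
    have h6 : (y - x) ^ 2 / 2 ≤ Vp' L N ((x ^ 2 - 1) / 2) * ((y - x) ^ 2 / 2) := by
      have : 0 ≤ (y - x) ^ 2 / 2 := by positivity
      nlinarith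
    nlinarith

end

end Pool.Agent.X139.LS
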