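import Pool.Agent.X139.LS.Par

/-!
# Numerical bounds for the example
-/

set_option autoImplicit false

open MeasureTheory Set Real Filter Topology

namespace Pool.Agent.X139.LS

theorem int_mono_on {X : Type*} [TopologicalSpace X] [MeasurableSpace X]
    [OpensMeasurableSpace X] [SecondCountableTopology X]
    [T2Space X] (μ : Measure X) [IsFiniteMeasure μ] {s : Set X} (hs : IsCompact s)
    (hμ : μ.restrict s = μ) (f g : X → ℝ) (hf : Continuous f) (hg : Continuous g)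
    (h : ∀ x ∈ s, f x ≤ g x) : ∫ x, f x ∂μ ≤ ∫ x, g x ∂μ := by
  have h1 : ∫ x in s, f x ∂μ ≤ ∫ x in s, g x ∂μ :=
    setIntegral_mono_on (hf.continuousOn.integrableOn_compact hs)
      (hg.continuousOn.integrableOn_compact hs) hs.measurableSet h
  rwa [hμ] at h1

theorem int_congr_on {X : Type*} [TopologicalSpace X] [MeasurableSpace X]
    [OpensMeasurableSpace X]
    [T2Space X] (μ : Measure X) {s : Set X} (hs : IsCompact s)
    (hμ : μ.restrict s = μ) (f g : X → ℝ)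
    (h : ∀ x ∈ s, f x = g x) : ∫ x, f x ∂μ = ∫ x, g x ∂μ := by
  have h1 : ∫ x in s, f x ∂μ = ∫ x in s, g x ∂μ :=
    setIntegral_congr_fun hs.measurableSet h
  rwa [hμ] at h1

instance : IsProbabilityMeasure Un := Un_good.prob

theorem Un_on : Un.restrict (Icc (-1) 1) = Un := Un_good.on

theorem Un_int (g : ℝ → ℝ) : ∫ x, g x ∂Un = (∫ x in (-1:ℝ)..1, g x) / 2 := by
  unfold Un
  rw [TM_integral (by norm_num)]
  norm_num

theorem Un_sq : ∫ t, t ^ 2 ∂Un = 1 / 3 := by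
  rw [Un_int]
  norm_num

theorem Un_id : ∫ t, t ∂Un = 0 := by
  rw [Un_int (fun t => t)]
  norm_num

theorem Un_integrable (f : ℝ → ℝ) (hf : Continuous f) : Integrable f Un :=
  integrable_of_cont _ isCompact_Icc Un_on f hf

/-- `H a ρ = E exp (- a ρ t²)` for `t` uniform on `[-1,1]` -/
noncomputable def H (a ρ : ℝ) : ℝ := ∫ t, exp (-(a * ρ * t ^ 2)) ∂Un

theorem H_pos (a ρ : ℝ) : 0 < H a ρ :=
  int_pos Un _ (fun _ => exp_pos _) (Un_integrable _ (by fun_prop))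

theorem H_one_le {a : ℝ} (ha : 0 ≤ a) : H a 1 ≤ 1 := by
  have h1 : H a 1 ≤ ∫ _, (1:ℝ) ∂Un := by
    unfold H
    refine int_mono_on Un isCompact_Icc Un_on _ _ (by fun_prop) (by fun_prop) fun t _ => ?_
    rw [Real.exp_le_one_iff]
    have : 0 ≤ a * 1 * t ^ 2 := by positivity
    linarith
  simpa using h1

theorem H_one_ge {a : ℝ} : 1 - a / 3 ≤ H a 1 := by
  have h1 : ∫ t, (1 - a * t ^ 2) ∂Un ≤ H a 1 := by
    unfold H
    refine int_mono_on Un isCompact_Icc Un_on _ _ (by fun_prop) (by fun_prop) fun t _ => ?_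
    have := add_one_le_exp (-(a * 1 * t ^ 2))
    linarith
  rw [integral_sub (Un_integrable _ (by fun_prop)) (Un_integrable _ (by fun_prop)),
    integral_const_mul, Un_sq] at h1
  simp at h1
  linarith

theorem H_lower {a ρ : ℝ} (ha : 0 ≤ a) (hρ : ρ ≤ 1) :
    1 + a * (1 - ρ) * (1 - a) / 3 ≤ H a ρ / H a 1 := by
  have h0 := H_pos a 1
  rw [le_div_iff₀ h0]
  have h1 : ∫ t, (exp (-(a * 1 * t ^ 2)) + a * (1 - ρ) * (1 - a) * t ^ 2) ∂Un ≤ H a ρ := by
    unfold H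
    refine int_mono_on Un isCompact_Icc Un_on _ _ (by fun_prop) (by fun_prop) fun t ht => ?_
    have e1 : exp (-(a * ρ * t ^ 2)) = exp (-(a * 1 * t ^ 2)) * exp (a * (1 - ρ) * t ^ 2) := by
      rw [← exp_add]; ring_nf
    rw [e1]
    have h2 := add_one_le_exp (a * (1 - ρ) * t ^ 2)
    have h3 := add_one_le_exp (-(a * 1 * t ^ 2))
    have ht2 : t ^ 2 ≤ 1 := by nlinarith [ht.1, ht.2]
    have ht0 : 0 ≤ t ^ 2 := sq_nonneg t
    have h4 : 0 ≤ a * (1 - ρ) * t ^ 2 := by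
      have : 0 ≤ 1 - ρ := by linarith
      positivity
    have h5 := exp_pos (-(a * 1 * t ^ 2))
    have h6 : 1 - a ≤ exp (-(a * 1 * t ^ 2)) := by nlinarith
    have h7 : exp (-(a * 1 * t ^ 2)) * (a * (1 - ρ) * t ^ 2 + 1) ≤
        exp (-(a * 1 * t ^ 2)) * exp (a * (1 - ρ) * t ^ 2) :=
      mul_le_mul_of_nonneg_left h2 h5.le
    have h8 : (1 - a) * (a * (1 - ρ) * t ^ 2) ≤
        exp (-(a * 1 * t ^ 2)) * (a * (1 - ρ) * t ^ 2) :=
      mul_le_mul_of_nonneg_right h6 h4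
    nlinarith
  rw [integral_add (Un_integrable _ (by fun_prop)) (Un_integrable _ (by fun_prop)),
    integral_const_mul, Un_sq] at h1
  have h2 : ∫ t, exp (-(a * 1 * t ^ 2)) ∂Un = H a 1 := rfl
  rw [h2] at h1
  have h3 := H_one_le ha
  by_cases hc : 0 ≤ a * (1 - ρ) * (1 - a)
  · nlinarith
  · push Not at hc
    have h4 : 1 - a / 3 ≤ H a 1 := H_one_ge
    by_cases ha1 : a ≤ 1
    · exfalso
      have : 0 ≤ a * (1 - ρ) * (1 - a) := by
        have h5 : 0 ≤ 1 - ρ := by linarith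
        have h6 : 0 ≤ 1 - a := by linarith
        positivity
      linarith
    · -- crude bound in this (unused) range
      have h5 : H a 1 ≤ H a ρ := by
        unfold H
        refine int_mono_on Un isCompact_Icc Un_on _ _ (by fun_prop) (by fun_prop) fun t _ => ?_
        rw [exp_le_exp]
        have : a * ρ * t ^ 2 ≤ a * 1 * t ^ 2 := by gcongr
        linarith
      nlinarith

theorem H_upper {a ρ : ℝ} (ha : 0 ≤ a) (ha1 : a ≤ 1) (hρ0 : 0 ≤ ρ) (hρ : ρ ≤ 1) :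
    H a ρ / H a 1 ≤ 1 + a * (1 - ρ) / 3 + 3 * a ^ 2 * (1 - ρ) := by
  have h0 := H_pos a 1
  have hδ0 : 0 ≤ 1 - ρ := by linarith
  have hδ1 : 1 - ρ ≤ 1 := by linarith
  have h1 : H a ρ ≤ ∫ t, (exp (-(a * 1 * t ^ 2)) + (a * (1 - ρ) + (a * (1 - ρ)) ^ 2) * t ^ 2) ∂Un := by
    unfold H
    refine int_mono_on Un isCompact_Icc Un_on _ _ (by fun_prop) (by fun_prop) fun t ht => ?_
    have e1 : exp (-(a * ρ * t ^ 2)) = exp (-(a * 1 * t ^ 2)) * exp (a * (1 - ρ) * t ^ 2) := by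
      rw [← exp_add]; ring_nf
    rw [e1]
    have ht2 : t ^ 2 ≤ 1 := by nlinarith [ht.1, ht.2]
    have ht0 : 0 ≤ t ^ 2 := sq_nonneg t
    set y := a * (1 - ρ) * t ^ 2 with hy
    have hy0 : 0 ≤ y := by positivity
    have hy1 : y ≤ 1 := by
      have : a * (1 - ρ) ≤ 1 := by nlinarith
      have h2 : 0 ≤ a * (1 - ρ) := by positivity
      nlinarith
    have h2 := Real.abs_exp_sub_one_sub_id_le (x := y) (by rw [abs_of_nonneg hy0]; exact hy1)
    have h3 : exp y ≤ 1 + y + y ^ 2 := by linarith [le_abs_self (exp y - 1 - y)]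
    have h5 := exp_pos (-(a * 1 * t ^ 2))
    have h6 : exp (-(a * 1 * t ^ 2)) ≤ 1 := by
      rw [Real.exp_le_one_iff]
      have : 0 ≤ a * 1 * t ^ 2 := by positivity
      linarith
    have h7 : exp (-(a * 1 * t ^ 2)) * exp y ≤ exp (-(a * 1 * t ^ 2)) * (1 + y + y ^ 2) :=
      mul_le_mul_of_nonneg_left h3 h5.le
    have h8 : exp (-(a * 1 * t ^ 2)) * (y + y ^ 2) ≤ 1 * (y + y ^ 2) :=
      mul_le_mul_of_nonneg_right h6 (by positivity)
    have h9 : y ^ 2 ≤ (a * (1 - ρ)) ^ 2 * t ^ 2 := by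
      rw [hy, mul_pow]
      have : (t ^ 2) ^ 2 ≤ t ^ 2 := by nlinarith
      gcongr
    nlinarith
  rw [integral_add (Un_integrable _ (by fun_prop)) (Un_integrable _ (by fun_prop)),
    integral_const_mul, Un_sq] at h1
  have h2 : ∫ t, exp (-(a * 1 * t ^ 2)) ∂Un = H a 1 := rfl
  rw [h2] at h1
  have h4 : 1 - a / 3 ≤ H a 1 := H_one_ge
  rw [div_le_iff₀ h0]
  set δ := 1 - ρ with hδ
  have h5 : 0 ≤ a * δ := by positivity
  have h6 : (1 + a * δ / 3 + 3 * a ^ 2 * δ) * H a 1 =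
      H a 1 + (a * δ / 3 + 3 * a ^ 2 * δ) * H a 1 := by ring
  rw [h6]
  have h7 : (a * δ / 3 + 3 * a ^ 2 * δ) * (1 - a / 3) ≤ (a * δ / 3 + 3 * a ^ 2 * δ) * H a 1 :=
    mul_le_mul_of_nonneg_left h4 (by positivity)
  have h8 : (a * δ + (a * δ) ^ 2) * (1 / 3) ≤ (a * δ / 3 + 3 * a ^ 2 * δ) * (1 - a / 3) := by
    have e : (a * δ / 3 + 3 * a ^ 2 * δ) * (1 - a / 3) - (a * δ + (a * δ) ^ 2) * (1 / 3) =
        a ^ 2 * δ * (3 - 1 / 9 - a - δ / 3) := by ring
    have : 0 ≤ a ^ 2 * δ * (3 - 1 / 9 - a - δ / 3) := by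
      have : 0 ≤ 3 - 1 / 9 - a - δ / 3 := by linarith
      positivity
    linarith
  linarith

section
variable {L N : ℝ} (hL : 1 ≤ L) (hN : 1000 * L ^ 3 ≤ N)

include hL hN in
theorem N_ge : 1000 ≤ N := by
  have : 1 ≤ L ^ 3 := one_le_pow₀ hL
  linarith

include hL hN in
theorem LN1 : L ^ 2 ≤ N / 1000 := by
  have : L ^ 2 ≤ L ^ 3 := by
    have h0 : 0 ≤ L ^ 2 := by positivity
    nlinarith
  linarith

include hL hN in
theorem LN0 : L ≤ N / 1000 := by
  have h1 := LN1 hL hN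
  nlinarith

/-- the two-sided bound for the tilted density -/
theorem Q_bounds {m : ℕ} (hm : (m : ℝ) = N ^ 2) {x : ℝ} (hx : x ∈ Icc 0 L)
    (hL : 1 ≤ L) (hN : 1000 * L ^ 3 ≤ N) :
    exp (x - 1) ≤ (H (3 * L / (2 * N)) ((1 - x / (L * N)) ^ 2) / H (3 * L / (2 * N)) 1) ^ m ∧
    (H (3 * L / (2 * N)) ((1 - x / (L * N)) ^ 2) / H (3 * L / (2 * N)) 1) ^ m ≤ exp (x + 1) := by
  have hN1 := N_ge hL hN
  have hN2 : (2:ℝ) ≤ N := by linarith
  have hL0 : 0 < L := by linarith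
  have hN0 : 0 < N := by linarith
  have hLN := LN0 hL hN
  have hL2N := LN1 hL hN
  have hr := r_low hL hN2 hx
  set a := 3 * L / (2 * N) with ha
  set z := x / (L * N) with hz
  have hz0 : 0 ≤ z := by
    have := hx.1
    positivity
  have hzN : z ≤ 1 / N := by
    rw [hz, div_le_div_iff₀ (by positivity) hN0]
    nlinarith [hx.2]
  have hN' : 1 / N ≤ 1 / 1000 := by gcongr
  have ha0 : 0 ≤ a := by positivity
  have ha1 : a ≤ 3 / 2000 := by
    rw [ha, div_le_div_iff₀ (by positivity) (by norm_num)]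
    nlinarith
  set ρ := (1 - z) ^ 2 with hρ
  have hρ0 : 0 ≤ ρ := by positivity
  have hρe : 1 - ρ = 2 * z - z ^ 2 := by rw [hρ]; ring
  have hδ0 : 0 ≤ 1 - ρ := by rw [hρe]; nlinarith
  have hδ2 : 1 - ρ ≤ 2 * z := by rw [hρe]; nlinarith [sq_nonneg z]
  have hρ1 : ρ ≤ 1 := by linarith
  have hNz : N ^ 2 * a * z * 2 / 3 = x := by
    rw [ha, hz]; field_simp
  have hN2az : N ^ 2 * a ^ 2 * z ≤ 9 / 4 * L ^ 2 / N := by
    have : N ^ 2 * a ^ 2 * z ≤ N ^ 2 * a ^ 2 * (1 / N) := by gcongr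
    refine this.trans (le_of_eq ?_)
    rw [ha]; field_simp; norm_num
  have hsm : 9 / 4 * L ^ 2 / N ≤ 9 / 4000 := by
    rw [div_le_div_iff₀ hN0 (by norm_num)]
    nlinarith
  constructor
  · set y := a * (1 - ρ) * (1 - a) / 3 with hy
    have h1 : 1 + y ≤ H a ρ / H a 1 := H_lower ha0 hρ1
    have h1a : 0 ≤ 1 - a := by linarith
    have hy0 : 0 ≤ y := by positivity
    have h2 : exp (y - y ^ 2) ≤ 1 + y := by
      have h3 := add_one_le_exp (y ^ 2 - y)
      have h4 : 1 ≤ exp (y ^ 2 - y) * (1 + y) := by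
        have : (y ^ 2 - y + 1) * (1 + y) ≤ exp (y ^ 2 - y) * (1 + y) :=
          mul_le_mul_of_nonneg_right h3 (by linarith)
        have h5 : (y ^ 2 - y + 1) * (1 + y) = 1 + y ^ 3 := by ring
        have h6 : 0 ≤ y ^ 3 := by positivity
        linarith
      have h5 : exp (y - y ^ 2) * exp (y ^ 2 - y) = 1 := by
        rw [← exp_add]; simp
      have h6 := exp_pos (y - y ^ 2)
      calc exp (y - y ^ 2) = exp (y - y ^ 2) * 1 := by ring
        _ ≤ exp (y - y ^ 2) * (exp (y ^ 2 - y) * (1 + y)) := by gcongr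
        _ = 1 + y := by rw [← mul_assoc, h5, one_mul]
    have h3 : exp (x - 1) ≤ (exp (y - y ^ 2)) ^ m := by
      rw [← exp_nat_mul, exp_le_exp, hm]
      have h4 : y ^ 2 ≤ a ^ 2 * (1 - ρ) := by
        have : y ≤ a * (1 - ρ) := by
          rw [hy]
          have : 0 ≤ a * (1 - ρ) := by positivity
          nlinarith
        have h5 : a * (1 - ρ) ≤ a := by nlinarith
        calc y ^ 2 = y * y := by ring
          _ ≤ a * (a * (1 - ρ)) := by gcongr; linarith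
          _ = _ := by ring
      have h5 : N ^ 2 * (y - y ^ 2) ≥ N ^ 2 * (a * (1 - ρ) / 3) - N ^ 2 * a ^ 2 * (1 - ρ) * 2 := by
        have h6 : y - y ^ 2 ≥ a * (1 - ρ) / 3 - a ^ 2 * (1 - ρ) * 2 := by
          have : y = a * (1 - ρ) / 3 - a ^ 2 * (1 - ρ) / 3 := by rw [hy]; ring
          have h8 : 0 ≤ a ^ 2 * (1 - ρ) := by positivity
          linarith
        have := mul_le_mul_of_nonneg_left h6.le (by positivity : (0:ℝ) ≤ N ^ 2)
        linarith
      have h6 : N ^ 2 * (a * (1 - ρ) / 3) = x - N ^ 2 * a * z ^ 2 / 3 := by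
        rw [hρe, ← hNz]; ring
      have h7 : N ^ 2 * a * z ^ 2 / 3 ≤ 1 / 2 := by
        have : N ^ 2 * a * z ^ 2 / 3 = x * z / 2 := by rw [← hNz]; ring
        rw [this]
        have h8 : x * z ≤ L * (1 / N) := by
          have := hx.1
          have := hx.2
          gcongr
        have h9 : L * (1 / N) ≤ 1 := by
          rw [mul_one_div, div_le_one hN0]; linarith
        linarith
      have h8 : N ^ 2 * a ^ 2 * (1 - ρ) * 2 ≤ 1 / 2 := by
        have : N ^ 2 * a ^ 2 * (1 - ρ) ≤ N ^ 2 * a ^ 2 * (2 * z) := by gcongr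
        linarith
      linarith
    refine h3.trans ?_
    gcongr
    exact h2.trans h1
  · have h1 := H_upper ha0 (by linarith) hρ0 hρ1
    have h2 : 1 + a * (1 - ρ) / 3 + 3 * a ^ 2 * (1 - ρ) ≤
        exp (a * (1 - ρ) / 3 + 3 * a ^ 2 * (1 - ρ)) := by
      have := add_one_le_exp (a * (1 - ρ) / 3 + 3 * a ^ 2 * (1 - ρ))
      linarith
    have h3 : (H a ρ / H a 1) ^ m ≤ (exp (a * (1 - ρ) / 3 + 3 * a ^ 2 * (1 - ρ))) ^ m := by
      have := H_pos a ρ
      have := H_pos a 1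
      gcongr
      exact h1.trans h2
    refine h3.trans ?_
    rw [← exp_nat_mul, exp_le_exp, hm]
    have h4 : N ^ 2 * (a * (1 - ρ) / 3 + 3 * a ^ 2 * (1 - ρ)) ≤
        N ^ 2 * (a * (2 * z) / 3 + 3 * a ^ 2 * (2 * z)) := by gcongr
    have h5 : N ^ 2 * (a * (2 * z) / 3 + 3 * a ^ 2 * (2 * z)) = x + 6 * (N ^ 2 * a ^ 2 * z) := by
      rw [← hNz]; ring
    linarith

end

end Pool.Agent.X139.LS
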