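import Pool.Agent.X139.LS.Par2

/-!
# Moments of the first law
-/

set_option autoImplicit false

open MeasureTheory Set Real Filter Topology

namespace Pool.Agent.X139.LS

section
variable {L N : ℝ} (hL : 1 ≤ L) (hN : 2 ≤ N)

theorem sq_int (L c : ℝ) : ∫ x in (0:ℝ)..L, (x - c) ^ 2 = ((L - c) ^ 3 + c ^ 3) / 3 := by
  have h : ∀ x : ℝ, HasDerivAt (fun x : ℝ => (x - c) ^ 3 / 3) ((x - c) ^ 2) x := by
    intro x
    have := (((hasDerivAt_id x).sub_const c).pow 3).div_const 3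
    refine this.congr_deriv ?_
    simp
  rw [intervalIntegral.integral_eq_sub_of_hasDerivAt (fun x _ => h x)
    (Continuous.intervalIntegrable (by fun_prop) _ _)]
  ring

theorem sq_int_ge (L c : ℝ) (hL : 0 ≤ L) : L ^ 3 / 12 ≤ ∫ x in (0:ℝ)..L, (x - c) ^ 2 := by
  rw [sq_int]
  nlinarith [mul_nonneg hL (sq_nonneg (2 * c - L))]

theorem exp_int (L : ℝ) : ∫ x in (0:ℝ)..L, exp (-x) = 1 - exp (-L) := by
  have h : ∀ x : ℝ, HasDerivAt (fun x : ℝ => -exp (-x)) (exp (-x)) x := by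
    intro x
    have := ((hasDerivAt_id x).neg.exp).neg
    refine this.congr_deriv ?_
    simp
  rw [intervalIntegral.integral_eq_sub_of_hasDerivAt (fun x _ => h x)
    (Continuous.intervalIntegrable (by fun_prop) _ _)]
  simp
  ring

theorem exp_half_int (L : ℝ) : ∫ x in (0:ℝ)..L, 8 * exp (-x / 2) = 16 - 16 * exp (-L / 2) := by
  have h : ∀ x : ℝ, HasDerivAt (fun x : ℝ => -16 * exp (-x / 2)) (8 * exp (-x / 2)) x := by
    intro x
    have := (((hasDerivAt_id x).neg.div_const 2).exp).const_mul (-16 : ℝ)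
    refine this.congr_deriv ?_
    simp
    ring
  rw [intervalIntegral.integral_eq_sub_of_hasDerivAt (fun x _ => h x)
    (Continuous.intervalIntegrable (by fun_prop) _ _)]
  simp
  ring

/-- the normalisation -/
noncomputable def Zp (L N : ℝ) : ℝ := ∫ x in (0:ℝ)..L, exp (-Vp L N x)

include hL hN

theorem ii {g : ℝ → ℝ} (hg : ContinuousOn g (Icc 0 L)) :
    IntervalIntegrable (fun x => g x * exp (-Vp L N x)) volume 0 L := by
  refine ContinuousOn.intervalIntegrable ?_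
  rw [uIcc_of_le (by linarith)]
  exact hg.mul (Real.continuous_exp.comp_continuousOn (Vp_contOn hL hN).neg)

theorem ii1 : IntervalIntegrable (fun x => exp (-Vp L N x)) volume 0 L := by
  have := ii hL hN (g := fun _ => 1) continuousOn_const
  simpa using this

theorem Zp_pos : 0 < Zp L N := Z_pos (by linarith) _ (Vp_contOn hL hN)

theorem Zp_le : Zp L N ≤ 1 := by
  have h1 : Zp L N ≤ ∫ x in (0:ℝ)..L, exp (-x) := by
    refine intervalIntegral.integral_mono_on (by linarith) (ii1 hL hN)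
      (Continuous.intervalIntegrable (by fun_prop) _ _) fun x hx => ?_
    rw [exp_le_exp]
    linarith [Vp_lower hL hN hx]
  rw [exp_int] at h1
  linarith [exp_pos (-L)]

theorem Zp_ge : exp (-3) ≤ Zp L N := by
  have h1 : ∫ x in (0:ℝ)..L, exp (-2) * exp (-x) ≤ Zp L N := by
    refine intervalIntegral.integral_mono_on (by linarith)
      (Continuous.intervalIntegrable (by fun_prop) _ _) (ii1 hL hN) fun x hx => ?_
    rw [← exp_add, exp_le_exp]
    linarith [Vp_upper hL hN hx]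
  rw [intervalIntegral.integral_const_mul, exp_int] at h1
  have h2 : exp (-L) ≤ exp (-1) := by rw [exp_le_exp]; linarith
  have h3 : exp (-1 : ℝ) * 2 ≤ 1 := by
    have h4 : (2:ℝ) ≤ exp 1 := by linarith [add_one_le_exp (1:ℝ)]
    have h5 : exp (-1 : ℝ) * exp 1 = 1 := by rw [← exp_add]; simp
    have h6 := exp_pos (-1 : ℝ)
    nlinarith
  have h4 : exp (-3 : ℝ) = exp (-2) * exp (-1) := by rw [← exp_add]; norm_num
  have h5 := exp_pos (-2 : ℝ)
  rw [h4]
  refine le_trans ?_ h1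
  gcongr
  linarith

theorem Pm_int (g : ℝ → ℝ) : ∫ x, g x ∂(Pm L N) =
    (∫ x in (0:ℝ)..L, g x * exp (-Vp L N x)) / Zp L N :=
  TM_integral (by linarith) _ _

omit hL hN in
theorem exp3 : exp (3 : ℝ) ≤ 20.1 := by
  have h := Real.exp_one_lt_d9
  have h0 : exp (3:ℝ) = exp 1 ^ 3 := by rw [← exp_nat_mul]; norm_num
  rw [h0]
  have h1 : exp (1:ℝ) ^ 3 ≤ 2.7182818286 ^ 3 := by gcongr
  norm_num at h1 ⊢
  linarith

theorem var_lower (c : ℝ) : 1 / 250 ≤ ∫ x, (x - c) ^ 2 ∂(Pm L N) := by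
  rw [Pm_int hL hN, le_div_iff₀ (Zp_pos hL hN)]
  have h1 : ∫ x in (0:ℝ)..1, (x - c) ^ 2 * exp (-3) ≤
      ∫ x in (0:ℝ)..1, (x - c) ^ 2 * exp (-Vp L N x) := by
    refine intervalIntegral.integral_mono_on (by linarith)
      (Continuous.intervalIntegrable (by fun_prop) _ _) ?_ fun x hx => ?_
    · refine (ii hL hN (g := fun x => (x - c) ^ 2) (by fun_prop)).mono_set ?_
      rw [uIcc_of_le (by linarith), uIcc_of_le (by linarith)]
      exact Icc_subset_Icc le_rfl hL
    · have := Vp_upper hL hN (x := x) ⟨hx.1, hx.2.trans hL⟩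
      have h2 : exp (-3) ≤ exp (-Vp L N x) := by
        rw [exp_le_exp]; linarith [hx.2]
      gcongr
  have h2 : ∫ x in (0:ℝ)..1, (x - c) ^ 2 * exp (-Vp L N x) ≤
      ∫ x in (0:ℝ)..L, (x - c) ^ 2 * exp (-Vp L N x) := by
    refine intervalIntegral.integral_mono_interval le_rfl (by norm_num) hL ?_
      (ii hL hN (g := fun x => (x - c) ^ 2) (by fun_prop))
    refine Filter.Eventually.of_forall fun x => ?_
    simp only [Pi.zero_apply]
    positivity
  rw [intervalIntegral.integral_mul_const] at h1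
  have h3 := sq_int_ge 1 c (by norm_num)
  have h4 := exp_pos (-3 : ℝ)
  have h5 : (1:ℝ) ^ 3 / 12 * exp (-3) ≤ (∫ x in (0:ℝ)..1, (x - c) ^ 2) * exp (-3) := by gcongr
  have h6 : 1 / 20.1 ≤ exp (-3 : ℝ) := by
    rw [exp_neg, ← one_div]
    have := exp3
    have := exp_pos (3:ℝ)
    gcongr
  have h7 := Zp_le hL hN
  have h8 := Zp_pos hL hN
  norm_num at h6 h5 ⊢
  linarith

theorem sq_upper : ∫ x, x ^ 2 ∂(Pm L N) ≤ 336 := by
  rw [Pm_int hL hN, div_le_iff₀ (Zp_pos hL hN)]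
  have h1 : ∫ x in (0:ℝ)..L, x ^ 2 * exp (-Vp L N x) ≤ ∫ x in (0:ℝ)..L, 8 * exp (-x / 2) := by
    refine intervalIntegral.integral_mono_on (by linarith)
      (ii hL hN (g := fun x => x ^ 2) (by fun_prop))
      (Continuous.intervalIntegrable (by fun_prop) _ _) fun x hx => ?_
    have h2 : exp (-Vp L N x) ≤ exp (-x) := by
      rw [exp_le_exp]; linarith [Vp_lower hL hN hx]
    have h3 : x ^ 2 ≤ 8 * exp (x / 2) := by
      have := Real.quadratic_le_exp_of_nonneg (x := x / 2) (by linarith [hx.1])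
      nlinarith [hx.1]
    have h4 : exp (-x) = exp (-x / 2) * exp (-x / 2) := by rw [← exp_add]; ring_nf
    have h5 : exp (x / 2) * exp (-x / 2) = 1 := by rw [← exp_add]; ring_nf; simp
    calc x ^ 2 * exp (-Vp L N x) ≤ x ^ 2 * exp (-x) := by gcongr
      _ ≤ 8 * exp (x / 2) * exp (-x) := by gcongr
      _ = 8 * (exp (x / 2) * exp (-x / 2)) * exp (-x / 2) := by rw [h4]; ring
      _ = 8 * exp (-x / 2) := by rw [h5]; ring
  rw [exp_half_int] at h1
  have h2 := exp_pos (-L / 2)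
  have h3 := Zp_ge hL hN
  have h6 : 1 / 20.1 ≤ exp (-3 : ℝ) := by
    rw [exp_neg, ← one_div]
    have := exp3
    have := exp_pos (3:ℝ)
    gcongr
  norm_num at h6
  linarith

/-- spread of a measure with density comparable to a constant on `[0, L]` -/
theorem spread (W : ℝ → ℝ) (hW : ContinuousOn W (Icc 0 L)) (k1 k2 : ℝ) (h2 : 0 < k2)
    (hk1 : ∀ x ∈ Icc 0 L, k1 ≤ W x * exp (-Vp L N x)) (hk2 : ∀ x ∈ Icc 0 L, W x * exp (-Vp L N x) ≤ k2)
    (h1 : 0 ≤ k1) (c : ℝ) :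
    k1 / k2 * (L ^ 2 / 12) * ∫ x, W x ∂(Pm L N) ≤ ∫ x, (x - c) ^ 2 * W x ∂(Pm L N) := by
  rw [Pm_int hL hN, Pm_int hL hN, ← mul_div_assoc]
  have hZ := Zp_pos hL hN
  have e1 : ∫ x in (0:ℝ)..L, (x - c) ^ 2 * k1 ≤
      ∫ x in (0:ℝ)..L, (x - c) ^ 2 * W x * exp (-Vp L N x) := by
    refine intervalIntegral.integral_mono_on (by linarith)
      (Continuous.intervalIntegrable (by fun_prop) _ _)
      (ii hL hN (g := fun x => (x - c) ^ 2 * W x) (ContinuousOn.mul (by fun_prop) hW))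
      fun x hx => ?_
    rw [mul_assoc]
    have := hk1 x hx
    gcongr
  have e2 : ∫ x in (0:ℝ)..L, W x * exp (-Vp L N x) ≤ ∫ x in (0:ℝ)..L, k2 := by
    refine intervalIntegral.integral_mono_on (by linarith) (ii hL hN hW) (by simp)
      fun x hx => hk2 x hx
  rw [intervalIntegral.integral_mul_const] at e1
  rw [intervalIntegral.integral_const, smul_eq_mul, sub_zero] at e2
  have e3 := sq_int_ge L c (by linarith)
  have e4 : L ^ 3 / 12 * k1 ≤ (∫ x in (0:ℝ)..L, (x - c) ^ 2) * k1 := by gcongr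
  have e5 : k1 / k2 * (L ^ 2 / 12) * ∫ x in (0:ℝ)..L, W x * exp (-Vp L N x) ≤
      k1 / k2 * (L ^ 2 / 12) * (L * k2) := by gcongr
  have e6 : k1 / k2 * (L ^ 2 / 12) * (L * k2) = L ^ 3 / 12 * k1 := by
    field_simp
  gcongr
  linarith

end

end Pool.Agent.X139.LS
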