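import Pool.Agent.X139.LS.Iso

/-!
# The tilted law has a large spread in the first coordinate
-/

set_option autoImplicit false

open MeasureTheory Set Real Filter Topology
open scoped ContDiff RealInnerProductSpace ENNReal

namespace Pool.Agent.X139.LS

theorem ent_ge_var {n : ℕ} (τ : Measure (E n)) [IsProbabilityMeasure τ] {K : Set (E n)}
    (hK : IsCompact K) (hτ : τ.restrict K = τ) (f : E n → ℝ) (hf : Continuous f)
    (h0 : ∀ x ∈ K, 1 ≤ f x) :
    ∫ x, f x ^ 2 ∂τ - (∫ x, f x ∂τ) ^ 2 ≤ Ent τ (fun x => f x ^ 2) := by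
  have hint : ∀ g : E n → ℝ, Continuous g → Integrable g τ := fun g hg =>
    integrable_of_cont _ hK hτ g hg
  have h1 : (1:ℝ) ≤ ∫ x, f x ^ 2 ∂τ := by
    have : ∫ _, (1:ℝ) ∂τ ≤ ∫ x, f x ^ 2 ∂τ := by
      refine int_mono_on τ hK hτ _ _ (by fun_prop) (by fun_prop) fun x hx => ?_
      have := h0 x hx
      nlinarith
    simpa using this
  set a0 := √(∫ x, f x ^ 2 ∂τ) with ha0
  have hsq : a0 ^ 2 = ∫ x, f x ^ 2 ∂τ := Real.sq_sqrt (by linarith)
  have ha0p : 0 < a0 := Real.sqrt_pos.2 (by linarith)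
  have h2 : ∫ x, (f x ^ 2 * log (a0 ^ 2) + 2 * f x ^ 2 - 2 * a0 * f x) ∂τ ≤
      ∫ x, f x ^ 2 * log (f x ^ 2) ∂τ := by
    refine int_mono_on τ hK hτ _ _ (by fun_prop) (Real.continuous_mul_log.comp (hf.pow 2))
      fun x hx => ?_
    have hfx : 0 < f x := by linarith [h0 x hx]
    have h3 := Real.one_sub_inv_le_log_of_pos (x := f x / a0) (by positivity)
    rw [log_div hfx.ne' ha0p.ne'] at h3
    rw [log_pow, log_pow]
    have h4 := mul_le_mul_of_nonneg_left h3 (by positivity : 0 ≤ 2 * f x ^ 2)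
    have h5 : 2 * f x ^ 2 * (1 - (f x / a0)⁻¹) = 2 * f x ^ 2 - 2 * a0 * f x := by
      field_simp
    rw [h5] at h4
    push_cast
    linarith
  have j1 := hint (fun x => f x ^ 2 * log (a0 ^ 2)) (by fun_prop)
  have j2 := hint (fun x => 2 * f x ^ 2) (by fun_prop)
  have j3 := hint (fun x => 2 * a0 * f x) (by fun_prop)
  have j4 : Integrable (fun x => f x ^ 2 * log (a0 ^ 2) + 2 * f x ^ 2) τ := j1.add j2
  rw [integral_sub j4 j3, integral_add j1 j2, integral_mul_const, integral_const_mul,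
    integral_const_mul, ← hsq] at h2
  unfold Ent
  rw [← hsq]
  nlinarith [sq_nonneg (a0 - ∫ x, f x ∂τ)]

section
variable {L N : ℝ} (hL : 1 ≤ L) (hN : 1000 * L ^ 3 ≤ N)

/-- the variance of the tilt -/
noncomputable def hh (L N : ℝ) : ℝ := be L N ^ 2 * N / (3 * L)

/-- the weight of the first coordinate -/
noncomputable def Wt (L N : ℝ) (m : ℕ) (x : ℝ) : ℝ :=
  exp (-(al L N ^ 2 * (x - xb L N) ^ 2) / (2 * hh L N)) *
    H (3 * L / (2 * N)) ((1 - x / (L * N)) ^ 2) ^ m

theorem H_cont (a : ℝ) : Continuous (fun ρ => H a ρ) := by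
  unfold H
  have := continuous_parametric_integral_of_continuous (μ := Un)
    (f := fun ρ t : ℝ => exp (-(a * ρ * t ^ 2))) (by fun_prop) (isCompact_Icc (a := (-1:ℝ)) (b := 1))
  rwa [Un_on] at this

theorem Wt_cont (L N : ℝ) (m : ℕ) : Continuous (Wt L N m) := by
  unfold Wt
  have h1 : Continuous (fun x : ℝ => H (3 * L / (2 * N)) ((1 - x / (L * N)) ^ 2)) :=
    (H_cont _).comp (by fun_prop)
  fun_prop

theorem Wt_pos (L N : ℝ) (m : ℕ) (x : ℝ) : 0 < Wt L N m x := by
  unfold Wt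
  have := H_pos (3 * L / (2 * N)) ((1 - x / (L * N)) ^ 2)
  positivity

include hL hN

theorem hh_pos : 0 < hh L N := by
  have h2 := N_ge hL hN
  have := be_ge hL (by linarith : (2:ℝ) ≤ N)
  unfold hh
  have : 0 < be L N ^ 2 := by linarith
  have : 0 < N := by linarith
  positivity

theorem tilt_int (m : ℕ) (g : ℝ → ℝ) (hg : Continuous g) :
    ∫ z, exp (-‖z‖ ^ 2 / (2 * hh L N)) * g (z 0) ∂(PI L N m) =
      ∫ x, g (al L N * (x - xb L N)) * Wt L N m x ∂(Pm L N) := by
  have h1000 := N_ge hL hN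
  have hN2 : (2:ℝ) ≤ N := by linarith
  have hN0 : 0 < N := by linarith
  have hL0 : 0 < L := by linarith
  have hp := (Pm_good hL hN2).prob
  have hh0 := hh_pos hL hN
  have hbe := be_ge hL hN2
  rw [PI_int m (fun z => exp (-‖z‖ ^ 2 / (2 * hh L N)) * g (z 0)) (by fun_prop),
    mu0_cons hL hN2]
  have hcc := continuous_cons m
  have hTc := T_cont L N (al L N) (be L N) (xb L N) m
  have hint : Integrable (fun z : ℝ × (Fin m → ℝ) =>
      exp (-‖T L N (al L N) (be L N) (xb L N) m (Fin.cons z.1 z.2)‖ ^ 2 / (2 * hh L N)) *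
        g (T L N (al L N) (be L N) (xb L N) m (Fin.cons z.1 z.2) 0)) ((Pm L N).prod (Um m)) := by
    have hUon : (Um m).restrict (Set.univ.pi fun _ => Icc (-1) 1) = Um m :=
      pi_on m _ _ fun _ => Un_on
    have hst : ((Pm L N).prod (Um m)).restrict ((Icc 0 L) ×ˢ (Set.univ.pi fun _ => Icc (-1) 1)) =
        (Pm L N).prod (Um m) := by
      rw [← Measure.prod_restrict, (Pm_good hL hN2).on, hUon]
    refine integrable_of_cont _ (isCompact_Icc.prod (isCompact_univ_pi fun _ => isCompact_Icc))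
      hst _ ?_
    have h1 : Continuous (fun z : ℝ × (Fin m → ℝ) =>
      T L N (al L N) (be L N) (xb L N) m (Fin.cons z.1 z.2)) := hTc.comp hcc
    fun_prop
  rw [integral_prod _ hint]
  refine integral_congr_ae (Eventually.of_forall fun x => ?_)
  simp only [T_zero, Fin.cons_zero]
  rw [integral_mul_const, mul_comm]
  congr 1
  unfold Wt
  have h2 : ∀ v : Fin m → ℝ,
      exp (-‖T L N (al L N) (be L N) (xb L N) m (Fin.cons x v)‖ ^ 2 / (2 * hh L N)) =
      exp (-(al L N ^ 2 * (x - xb L N) ^ 2) / (2 * hh L N)) *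
        ∏ j, exp (-(3 * L / (2 * N) * (1 - x / (L * N)) ^ 2 * v j ^ 2)) := by
    intro v
    rw [norm_E, Fin.sum_univ_succ]
    simp only [T_zero, T_succ, Fin.cons_zero, Fin.cons_succ]
    rw [← exp_sum, ← exp_add]
    congr 1
    have h3 : ∀ j, -(3 * L / (2 * N) * (1 - x / (L * N)) ^ 2 * v j ^ 2) =
        -((be L N * (1 - x / (L * N)) * v j) ^ 2) / (2 * hh L N) := by
      intro j
      have hbe0 : be L N ^ 2 ≠ 0 := by linarith
      have hbe1 : be L N ≠ 0 := by
        intro h; rw [h] at hbe0; simp at hbe0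
      unfold hh
      field_simp
    simp only [h3]
    rw [← Finset.sum_div, Finset.sum_neg_distrib]
    ring
  simp only [h2]
  rw [integral_const_mul]
  congr 1
  unfold Um
  rw [integral_fintype_prod_eq_pow (ι := Fin m) (μ := Un)
    (fun t => exp (-(3 * L / (2 * N) * (1 - x / (L * N)) ^ 2 * t ^ 2))), Fintype.card_fin]
  rfl

omit hL hN in
theorem exp5 : exp (5 : ℝ) ≤ 150 := by
  have h := Real.exp_one_lt_d9
  have h0 : exp (5:ℝ) = exp 1 ^ 5 := by rw [← exp_nat_mul]; norm_num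
  rw [h0]
  have h1 : exp (1:ℝ) ^ 5 ≤ 2.7182818286 ^ 5 := by gcongr
  norm_num at h1 ⊢
  linarith

theorem Wt_spread {m : ℕ} (hm : (m : ℝ) = N ^ 2) (c : ℝ) :
    1 / 150 * (L ^ 2 / 12) * ∫ x, Wt L N m x ∂(Pm L N) ≤
      ∫ x, (x - c) ^ 2 * Wt L N m x ∂(Pm L N) := by
  have h1000 := N_ge hL hN
  have hN2 : (2:ℝ) ≤ N := by linarith
  have hN0 : 0 < N := by linarith
  have hL0 : 0 < L := by linarith
  have hp := (Pm_good hL hN2).prob
  have hon := (Pm_good hL hN2).on
  have hh0 := hh_pos hL hN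
  set K0 := H (3 * L / (2 * N)) 1 ^ m with hK0
  have hK0p : 0 < K0 := pow_pos (H_pos _ _) _
  have hH1 := H_pos (3 * L / (2 * N)) 1
  have hxb : xb L N ∈ Icc 0 L := by
    constructor
    · exact (by
        have : ∫ _, (0:ℝ) ∂(Pm L N) ≤ xb L N := by
          refine int_mono_on _ isCompact_Icc hon _ _ (by fun_prop) (by fun_prop) fun x hx => hx.1
        simpa using this)
    · have : xb L N ≤ ∫ _, L ∂(Pm L N) := by
        refine int_mono_on _ isCompact_Icc hon _ _ (by fun_prop) (by fun_prop) fun x hx => hx.2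
      simpa using this
  have hW : ∀ x ∈ Icc 0 L, Wt L N m x * exp (-Vp L N x) =
      K0 * (exp (-(al L N ^ 2 * (x - xb L N) ^ 2) / (2 * hh L N)) *
        (H (3 * L / (2 * N)) ((1 - x / (L * N)) ^ 2) / H (3 * L / (2 * N)) 1) ^ m *
          exp (-Vp L N x)) := by
    intro x _
    unfold Wt
    rw [hK0, div_pow]
    field_simp
  have hexp1 : ∀ x ∈ Icc 0 L, exp (-1) ≤ exp (-(al L N ^ 2 * (x - xb L N) ^ 2) / (2 * hh L N)) := by
    intro x hx
    rw [exp_le_exp, neg_div, neg_le_neg_iff, div_le_one (by positivity)]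
    have h1 := al_le hL hN2
    have h2 := be_ge hL hN2
    have h3 : (x - xb L N) ^ 2 ≤ L ^ 2 := by
      have h4 : x - xb L N ≤ L := by linarith [hx.2, hxb.1]
      have h5 : -L ≤ x - xb L N := by linarith [hx.1, hxb.2]
      nlinarith
    have h4 : al L N ^ 2 * (x - xb L N) ^ 2 ≤ 250 * L ^ 2 := by gcongr
    refine h4.trans ?_
    have h5 : 2 * (3 * N / (3 * L)) ≤ 2 * hh L N := by
      unfold hh; gcongr
    refine le_trans ?_ h5
    have h6 : 2 * (3 * N / (3 * L)) = 2 * N / L := by field_simp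
    rw [h6, le_div_iff₀ hL0]
    nlinarith [pow_pos hL0 3]
  have hexp2 : ∀ x, exp (-(al L N ^ 2 * (x - xb L N) ^ 2) / (2 * hh L N)) ≤ 1 := by
    intro x
    rw [Real.exp_le_one_iff, neg_div, neg_nonpos]
    positivity
  have key := spread hL hN2 (Wt L N m) (Wt_cont L N m).continuousOn (K0 * exp (-4)) (K0 * exp 1)
    (by positivity) ?_ ?_ (by positivity) c
  · refine le_trans ?_ key
    have h1 : K0 * exp (-4) / (K0 * exp 1) = 1 / exp 5 := by
      rw [mul_div_mul_left _ _ hK0p.ne', div_eq_div_iff (exp_pos _).ne' (exp_pos _).ne',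
        ← exp_add, one_mul]
      norm_num
    rw [h1]
    have h2 := exp5
    have h3 := exp_pos (5:ℝ)
    have h4 : 0 ≤ ∫ x, Wt L N m x ∂(Pm L N) := integral_nonneg fun x => (Wt_pos L N m x).le
    gcongr
  · intro x hx
    rw [hW x hx]
    have h1 := (Q_bounds hm hx hL hN).1
    have h2 := Vp_upper hL hN2 hx
    have h3 : exp (-(x + 2)) ≤ exp (-Vp L N x) := by rw [exp_le_exp]; linarith
    have h4 : exp (-4 : ℝ) = exp (-1) * exp (x - 1) * exp (-(x + 2)) := by
      rw [← exp_add, ← exp_add]; ring_nf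
    rw [h4]
    have h5 := hexp1 x hx
    have h6 := H_pos (3 * L / (2 * N)) ((1 - x / (L * N)) ^ 2)
    gcongr
  · intro x hx
    rw [hW x hx]
    have h1 := (Q_bounds hm hx hL hN).2
    have h2 := Vp_lower hL hN2 hx
    have h3 : exp (-Vp L N x) ≤ exp (-x) := by rw [exp_le_exp]; linarith
    have h4 : exp (1 : ℝ) = 1 * exp (x + 1) * exp (-x) := by
      rw [one_mul, ← exp_add]; ring_nf
    rw [h4]
    have h5 := hexp2 x
    have h6 := H_pos (3 * L / (2 * N)) ((1 - x / (L * N)) ^ 2)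
    gcongr

/-- the tilted law -/
noncomputable def tau (L N : ℝ) (m : ℕ) : Measure (E (m + 1)) :=
  (PI L N m).tilted (fun z => -‖z‖ ^ 2 / (2 * hh L N))

theorem PI_integrable (m : ℕ) (g : E (m + 1) → ℝ) (hg : Continuous g) :
    Integrable g (PI L N m) := by
  have hN2 : (2:ℝ) ≤ N := by linarith [N_ge hL hN]
  have := PI_prob hL hN2 m
  have hc := ((Bx_compact L m).image (T_cont L N (al L N) (be L N) (xb L N) m))
  have hon : (PI L N m).restrict (T L N (al L N) (be L N) (xb L N) m '' Bx L m) = PI L N m := by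
    refine Measure.restrict_eq_self_of_ae_mem ?_
    rw [ae_iff]
    exact PI_support hL hN2 m
  exact integrable_of_cont _ hc hon g hg

theorem tau_prob (m : ℕ) : IsProbabilityMeasure (tau L N m) := by
  have hN2 : (2:ℝ) ≤ N := by linarith [N_ge hL hN]
  have := PI_prob hL hN2 m
  unfold tau
  refine isProbabilityMeasure_tilted ?_
  exact PI_integrable hL hN m _ (by fun_prop)

theorem tau_on (m : ℕ) :
    (tau L N m).restrict (T L N (al L N) (be L N) (xb L N) m '' Bx L m) = tau L N m := by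
  have hN2 : (2:ℝ) ≤ N := by linarith [N_ge hL hN]
  refine Measure.restrict_eq_self_of_ae_mem ?_
  have h1 : tau L N m ≪ PI L N m := tilted_absolutelyContinuous _ _
  have h2 : ∀ᵐ z ∂(PI L N m), z ∈ T L N (al L N) (be L N) (xb L N) m '' Bx L m := by
    rw [ae_iff]
    exact PI_support hL hN2 m
  exact h1.ae_le h2

omit hL hN in
theorem tau_int (m : ℕ) (g : E (m + 1) → ℝ) :
    ∫ z, g z ∂(tau L N m) = (∫ z, exp (-‖z‖ ^ 2 / (2 * hh L N)) * g z ∂(PI L N m)) /
      ∫ z, exp (-‖z‖ ^ 2 / (2 * hh L N)) ∂(PI L N m) := by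
  unfold tau
  rw [integral_tilted, ← integral_div]
  refine integral_congr_ae (Eventually.of_forall fun z => ?_)
  simp only [smul_eq_mul]
  ring

theorem tau_first (m : ℕ) (g : ℝ → ℝ) (hg : Continuous g) :
    ∫ z, g (z 0) ∂(tau L N m) = (∫ x, g (al L N * (x - xb L N)) * Wt L N m x ∂(Pm L N)) /
      ∫ x, Wt L N m x ∂(Pm L N) := by
  rw [tau_int m (fun z => g (z 0)), tilt_int hL hN m g hg]
  congr 1
  have := tilt_int hL hN m (fun _ => 1) (by fun_prop)
  simpa using this

theorem tau_spread {m : ℕ} (hm : (m : ℝ) = N ^ 2) (c : ℝ) :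
    L ^ 2 / 604800 ≤ ∫ z, (z 0 - c) ^ 2 ∂(tau L N m) := by
  have h1000 := N_ge hL hN
  have hN2 : (2:ℝ) ≤ N := by linarith
  have hp := (Pm_good hL hN2).prob
  rw [tau_first hL hN m (fun t => (t - c) ^ 2) (by fun_prop)]
  have hpos : 0 < ∫ x, Wt L N m x ∂(Pm L N) :=
    int_pos _ _ (Wt_pos L N m) (Pm_integrable hL hN2 _ (Wt_cont L N m))
  rw [le_div_iff₀ hpos]
  have hal := al_ge hL hN2
  have hal0 : al L N ≠ 0 := by
    intro h; rw [h] at hal; norm_num at hal
  have h1 := Wt_spread hL hN hm (xb L N + c / al L N)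
  have h2 : ∀ x, (al L N * (x - xb L N) - c) ^ 2 * Wt L N m x =
      al L N ^ 2 * ((x - (xb L N + c / al L N)) ^ 2 * Wt L N m x) := by
    intro x
    have : al L N * (x - xb L N) - c = al L N * (x - (xb L N + c / al L N)) := by
      field_simp
      ring
    rw [this]; ring
  simp only [h2]
  rw [integral_const_mul]
  set I := ∫ x, Wt L N m x ∂(Pm L N) with hI
  have h3 : al L N ^ 2 * (1 / 150 * (L ^ 2 / 12) * I) ≤
      al L N ^ 2 * ∫ x, (x - (xb L N + c / al L N)) ^ 2 * Wt L N m x ∂(Pm L N) := by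
    gcongr
  refine le_trans ?_ h3
  have h4 : 1 / 336 * (1 / 150 * (L ^ 2 / 12) * I) ≤ al L N ^ 2 * (1 / 150 * (L ^ 2 / 12) * I) := by
    gcongr
  refine le_trans (le_of_eq ?_) h4
  ring

theorem tau_CLSI {m : ℕ} (hm : (m : ℝ) = N ^ 2) :
    ENNReal.ofReal (L ^ 2 / 604800) ≤ CLSI (tau L N m) := by
  have h1000 := N_ge hL hN
  have hN2 : (2:ℝ) ≤ N := by linarith
  have hp := (Pm_good hL hN2).prob
  have hon := (Pm_good hL hN2).on
  have hτ := tau_prob hL hN m
  have hτon := tau_on hL hN m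
  have hK := ((Bx_compact L m).image (T_cont L N (al L N) (be L N) (xb L N) m))
  have hint : ∀ g : E (m + 1) → ℝ, Continuous g → Integrable g (tau L N m) := fun g hg =>
    integrable_of_cont _ hK hτon g hg
  unfold CLSI
  refine le_sInf fun C hC => ?_
  set M : ℝ := al L N * L + 1 with hM
  have hal0 : 0 ≤ al L N := Real.sqrt_nonneg _
  set f : E (m + 1) → ℝ := fun z => z 0 + M with hf
  have hfs : ContDiff ℝ ∞ f := by
    have : ContDiff ℝ ∞ (fun z : E (m + 1) => (EuclideanSpace.proj (𝕜 := ℝ) (0 : Fin (m + 1))) z) :=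
      (EuclideanSpace.proj (𝕜 := ℝ) (0 : Fin (m + 1))).contDiff
    exact this.add contDiff_const
  have hfc : Continuous f := hfs.continuous
  have h1 := hC f hfs
  have hgrad : ∀ z, ‖gradient f z‖ ≤ 1 := by
    intro z
    have h2 : HasFDerivAt f (EuclideanSpace.proj (𝕜 := ℝ) (0 : Fin (m + 1)) :
        E (m + 1) →L[ℝ] ℝ) z :=
      ((EuclideanSpace.proj (𝕜 := ℝ) (0 : Fin (m + 1))).hasFDerivAt).add_const M
    unfold gradient
    rw [LinearIsometryEquiv.norm_map, h2.fderiv]
    refine ContinuousLinearMap.opNorm_le_bound _ (by norm_num) fun v => ?_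
    rw [one_mul]
    exact PiLp.norm_apply_le v 0
  have h3 : ∫⁻ z, ENNReal.ofReal (‖gradient f z‖ ^ 2) ∂(tau L N m) ≤ 1 := by
    calc ∫⁻ z, ENNReal.ofReal (‖gradient f z‖ ^ 2) ∂(tau L N m)
        ≤ ∫⁻ _, 1 ∂(tau L N m) := by
          refine lintegral_mono fun z => ?_
          rw [← ENNReal.ofReal_one]
          refine ENNReal.ofReal_le_ofReal ?_
          have := hgrad z
          have := norm_nonneg (gradient f z)
          nlinarith
      _ = 1 := by simp
  have h4 : ENNReal.ofReal (Ent (tau L N m) (fun z => f z ^ 2)) ≤ C := by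
    refine h1.trans ?_
    calc C * ∫⁻ z, ENNReal.ofReal (‖gradient f z‖ ^ 2) ∂(tau L N m) ≤ C * 1 := by gcongr
      _ = C := mul_one C
  refine le_trans (ENNReal.ofReal_le_ofReal ?_) h4
  have hxb : xb L N ≤ L := by
    have : xb L N ≤ ∫ _, L ∂(Pm L N) := by
      refine int_mono_on _ isCompact_Icc hon _ _ (by fun_prop) (by fun_prop) fun x hx => hx.2
    simpa using this
  have h5 := ent_ge_var (tau L N m) hK hτon f hfc (by
    rintro _ ⟨s, hs, rfl⟩
    have hs0 := (Bx_zero hs).1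
    simp only [hf, T_zero, hM]
    nlinarith)
  refine le_trans ?_ h5
  have h6 := tau_spread hL hN hm (∫ z, z 0 ∂(tau L N m))
  refine h6.trans (le_of_eq ?_)
  set c := ∫ z, z 0 ∂(tau L N m) with hc
  have j0 : Integrable (fun z : E (m + 1) => z 0) (tau L N m) := hint _ (by fun_prop)
  have j1 : Integrable (fun z : E (m + 1) => z 0 ^ 2) (tau L N m) := hint _ (by fun_prop)
  have e1 : ∫ z, (z 0 - c) ^ 2 ∂(tau L N m) = (∫ z, z 0 ^ 2 ∂(tau L N m)) - c ^ 2 := by
    have h2 : ∀ z : E (m + 1), (z 0 - c) ^ 2 = z 0 ^ 2 - 2 * c * z 0 + c ^ 2 := fun z => by ring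
    simp only [h2]
    have j2 : Integrable (fun z : E (m + 1) => 2 * c * z 0) (tau L N m) := j0.const_mul _
    have j3 : Integrable (fun z : E (m + 1) => z 0 ^ 2 - 2 * c * z 0) (tau L N m) := j1.sub j2
    rw [integral_add j3 (integrable_const _), integral_sub j1 j2, integral_const_mul, ← hc]
    simp
    ring
  have e2 : ∫ z, f z ^ 2 ∂(tau L N m) = (∫ z, z 0 ^ 2 ∂(tau L N m)) + 2 * M * c + M ^ 2 := by
    have h2 : ∀ z : E (m + 1), f z ^ 2 = z 0 ^ 2 + 2 * M * z 0 + M ^ 2 := fun z => by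
      simp only [hf]; ring
    simp only [h2]
    have j2 : Integrable (fun z : E (m + 1) => 2 * M * z 0) (tau L N m) := j0.const_mul _
    have j3 : Integrable (fun z : E (m + 1) => z 0 ^ 2 + 2 * M * z 0) (tau L N m) := j1.add j2
    rw [integral_add j3 (integrable_const _), integral_add j1 j2, integral_const_mul, ← hc]
    simp
  have e3 : ∫ z, f z ∂(tau L N m) = c + M := by
    simp only [hf]
    rw [integral_add j0 (integrable_const _), ← hc]
    simp
  rw [e1, e2, e3]
  ring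

end

/-- upper bound for the log-Sobolev constant of the example -/
theorem PI_CLSI {L N : ℝ} (hL : 1 ≤ L) (hN : 2 ≤ N) {m : ℕ} (hm : (m : ℝ) = N ^ 2) :
    CLSI (PI L N m) ≤ ENNReal.ofReal (3000 * L) := by
  have := PI_prob hL hN m
  unfold CLSI
  refine sInf_le fun f hf => ?_
  have hf1 : ContDiff ℝ 1 f := hf.of_le (by exact_mod_cast le_top)
  have h1 := PI_lsi hL hN hm f hf1
  have hc := (gradient_cont f hf1).norm.pow 2
  have hon : (PI L N m).restrict (T L N (al L N) (be L N) (xb L N) m '' Bx L m) = PI L N m := by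
    refine Measure.restrict_eq_self_of_ae_mem ?_
    rw [ae_iff]
    exact PI_support hL hN m
  have hint : Integrable (fun z => ‖gradient f z‖ ^ 2) (PI L N m) :=
    integrable_of_cont _ ((Bx_compact L m).image (T_cont L N (al L N) (be L N) (xb L N) m)) hon _ hc
  rw [← ofReal_integral_eq_lintegral_ofReal hint (Eventually.of_forall fun z => by positivity),
    ← ENNReal.ofReal_mul (by positivity)]
  exact ENNReal.ofReal_le_ofReal h1

end Pool.Agent.X139.LS
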