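import Pool.Agent.X139.LS.Basic

/-!
# One-dimensional log-Sobolev inequality by monotone transport
-/

set_option autoImplicit false

open MeasureTheory Set Real Filter Topology

namespace Pool.Agent.X139.LS

/-- the clamp onto `[a,b]` -/
noncomputable def cl (a b x : ℝ) : ℝ := max a (min b x)

theorem cl_mem {a b : ℝ} (hab : a ≤ b) (x : ℝ) : cl a b x ∈ Icc a b :=
  ⟨le_max_left _ _, max_le hab (min_le_left _ _)⟩

theorem cl_eq {a b x : ℝ} (hx : x ∈ Icc a b) : cl a b x = x := by
  unfold cl
  rw [min_eq_right hx.2, max_eq_right hx.1]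

theorem cl_cont (a b : ℝ) : Continuous (cl a b) := by
  unfold cl
  fun_prop

/-- transport map: the increasing map carrying the weight `g` to the weight `w` -/
theorem exists_transport {a b : ℝ} (hab : a < b) (w g : ℝ → ℝ) (hw : Continuous w)
    (hg : Continuous g) (c : ℝ) (hc : 0 < c) (hwc : ∀ x, c ≤ w x)
    (hg0 : ∀ x, 0 < g x)
    (heq : ∫ x in a..b, g x = ∫ x in a..b, w x) :
    ∃ T : ℝ → ℝ, Continuous T ∧ T a = a ∧ T b = b ∧ (∀ x, a ≤ x → a ≤ T x) ∧
      (∀ x, x ≤ b → T x ≤ b) ∧ ∀ x, HasDerivAt T ((w (T x))⁻¹ * g x) x := by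
  set F : ℝ → ℝ := fun x => ∫ t in a..x, w t with hF
  set G : ℝ → ℝ := fun x => ∫ t in a..x, g t with hG
  have hFd : ∀ x, HasDerivAt F (w x) x := fun x =>
    (hw.integral_hasStrictDerivAt a x).hasDerivAt
  have hGd : ∀ x, HasDerivAt G (g x) x := fun x =>
    (hg.integral_hasStrictDerivAt a x).hasDerivAt
  have hFm : StrictMono F := by
    refine strictMono_of_deriv_pos fun x => ?_
    rw [(hFd x).deriv]
    linarith [hwc x]
  have hGm : StrictMono G := by
    refine strictMono_of_deriv_pos fun x => ?_
    rw [(hGd x).deriv]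
    exact hg0 x
  have hFc : Continuous F := continuous_iff_continuousAt.2 fun x => (hFd x).continuousAt
  have hGc : Continuous G := continuous_iff_continuousAt.2 fun x => (hGd x).continuousAt
  have hFd2 : ∀ x, HasDerivAt (fun x => F x - c * x) (w x - c * 1) x := fun x =>
    (hFd x).sub ((hasDerivAt_id x).const_mul c)
  have hmono : Monotone (fun x => F x - c * x) := by
    refine monotone_of_deriv_nonneg ?_ ?_
    · intro x
      exact (hFd2 x).differentiableAt
    · intro x
      rw [(hFd2 x).deriv]
      linarith [hwc x]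
  have hFa : F a = 0 := by simp [hF]
  have hGa : G a = 0 := by simp [hG]
  have hFb : F b = G b := heq.symm
  have t1 : Tendsto F atTop atTop := by
    have : Tendsto (fun x : ℝ => c * x + (F a - c * a)) atTop atTop :=
      tendsto_atTop_add_const_right _ _ (tendsto_id.const_mul_atTop hc)
    refine tendsto_atTop_mono' _ ?_ this
    filter_upwards [eventually_ge_atTop a] with x hx
    have := hmono hx
    simp only at this
    linarith
  have t2 : Tendsto F atBot atBot := by
    have : Tendsto (fun x : ℝ => c * x + (F a - c * a)) atBot atBot :=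
      tendsto_atBot_add_const_right _ _ (tendsto_id.const_mul_atBot hc)
    refine tendsto_atBot_mono' _ ?_ this
    filter_upwards [eventually_le_atBot a] with x hx
    have := hmono hx
    simp only at this
    linarith
  have hsurj : Function.Surjective F := hFc.surjective t1 t2
  set e : ℝ ≃o ℝ := StrictMono.orderIsoOfSurjective F hFm hsurj with he
  have heF : ∀ x, e x = F x := fun x => rfl
  refine ⟨fun x => e.symm (G x), e.symm.continuous.comp hGc, ?_, ?_, ?_, ?_, ?_⟩
  · simp only
    rw [hGa, ← hFa, ← heF a, e.symm_apply_apply]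
  · simp only
    rw [← hFb, ← heF b, e.symm_apply_apply]
  · intro x hx
    have : e.symm (G a) ≤ e.symm (G x) := e.symm.monotone (hGm.monotone hx)
    rwa [hGa, ← hFa, ← heF a, e.symm_apply_apply] at this
  · intro x hx
    have : e.symm (G x) ≤ e.symm (G b) := e.symm.monotone (hGm.monotone hx)
    rwa [← hFb, ← heF b, e.symm_apply_apply] at this
  · intro x
    have h1 : HasDerivAt (fun y => e.symm y) (w (e.symm (G x)))⁻¹ (G x) := by
      refine HasDerivAt.of_local_left_inverse (e.symm.continuous.continuousAt)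
        (hFd (e.symm (G x))) ?_ ?_
      · linarith [hwc (e.symm (G x))]
      · refine Eventually.of_forall fun y => ?_
        rw [← heF, e.apply_symm_apply]
    exact h1.comp x (hGd x)

/-- log-Sobolev inequality in Fisher form for a density `exp (-V)` on `[a,b]` with
`V'' ≥ 1` (in the weak form `hconv`), for functions normalised against the weight -/
theorem transport_lsi {a b : ℝ} (hab : a < b) (V V' u u' : ℝ → ℝ)
    (hV : ContinuousOn V (Icc a b)) (hV' : ∀ x ∈ Ioo a b, HasDerivAt V (V' x) x)
    (hconv : ∀ x ∈ Ioo a b, ∀ y ∈ Icc a b, V x + V' x * (y - x) + (y - x) ^ 2 / 2 ≤ V y)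
    (hu : ContinuousOn u (Icc a b)) (hu' : ∀ x ∈ Ioo a b, HasDerivAt u (u' x) x)
    (hu'c : ContinuousOn u' (Icc a b)) (hu0 : ∀ x ∈ Icc a b, 0 < u x)
    (hnorm : ∫ x in a..b, u x * exp (-V x) = ∫ x in a..b, exp (-V x)) :
    ∫ x in a..b, u x * log (u x) * exp (-V x) ≤
      ∫ x in a..b, (u' x) ^ 2 / (2 * u x) * exp (-V x) := by
  have hc := cl_cont a b
  have hcm := fun x => cl_mem hab.le x
  set w : ℝ → ℝ := fun x => exp (-V (cl a b x)) with hw
  have hwc : Continuous w := by
    exact Real.continuous_exp.comp (hV.comp_continuous hc hcm).neg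
  have hw0 : ∀ x, 0 < w x := fun x => exp_pos _
  set U : ℝ → ℝ := fun x => u (cl a b x) with hU
  have hUc : Continuous U := hu.comp_continuous hc hcm
  have hU0 : ∀ x, 0 < U x := fun x => hu0 _ (hcm x)
  set U' : ℝ → ℝ := fun x => u' (cl a b x) with hU'
  have hU'c : Continuous U' := hu'c.comp_continuous hc hcm
  set g : ℝ → ℝ := fun x => U x * w x with hg
  have hgc : Continuous g := hUc.mul hwc
  have hIcc : uIcc a b = Icc a b := uIcc_of_le hab.le
  obtain ⟨x0, hx0, hmin⟩ := isCompact_Icc.exists_isMinOn (nonempty_Icc.2 hab.le)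
    (hwc.continuousOn (s := Icc a b))
  have hwlow : ∀ x, w x0 ≤ w x := by
    intro x
    have h1 : w (cl a b x) = w x := by
      simp only [hw]
      rw [cl_eq (hcm x)]
    rw [← h1]
    exact hmin (hcm x)
  have heq : ∫ x in a..b, g x = ∫ x in a..b, w x := by
    have h1 : ∫ x in a..b, g x = ∫ x in a..b, u x * exp (-V x) := by
      refine intervalIntegral.integral_congr fun x hx => ?_
      rw [hIcc] at hx
      simp only [hg, hU, hw, cl_eq hx]
    have h2 : ∫ x in a..b, w x = ∫ x in a..b, exp (-V x) := by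
      refine intervalIntegral.integral_congr fun x hx => ?_
      rw [hIcc] at hx
      simp only [hw, cl_eq hx]
    rw [h1, h2, hnorm]
  obtain ⟨T, hTc, hTa, hTb, hTlo, hThi, hTd⟩ := exists_transport hab w g hwc hgc (w x0)
    (hw0 x0) hwlow (fun x => mul_pos (hU0 x) (hw0 x)) heq
  set P : ℝ → ℝ := fun x => (U' x) ^ 2 / (2 * U x) * w x with hP
  have hPc : Continuous P := by
    refine Continuous.mul (Continuous.div (hU'c.pow 2) (hUc.const_mul 2 |>.congr fun x => rfl)
      fun x => ?_) hwc
    have := hU0 x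
    positivity
  set Q : ℝ → ℝ := fun x => U x * log (U x) * w x with hQ
  have hQc : Continuous Q := (hlog U hUc hU0).mul hwc
  set Φ : ℝ → ℝ := fun x => g x * (T x - x) + (∫ t in a..x, P t) - ∫ t in a..x, Q t with hΦ
  have hPd : ∀ x, HasDerivAt (fun x => ∫ t in a..x, P t) (P x) x := fun x =>
    (hPc.integral_hasStrictDerivAt a x).hasDerivAt
  have hQd : ∀ x, HasDerivAt (fun x => ∫ t in a..x, Q t) (Q x) x := fun x =>
    (hQc.integral_hasStrictDerivAt a x).hasDerivAt
  have hΦc : Continuous Φ := by
    refine ((hgc.mul (hTc.sub continuous_id)).add ?_).sub ?_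
    · exact continuous_iff_continuousAt.2 fun x => (hPd x).continuousAt
    · exact continuous_iff_continuousAt.2 fun x => (hQd x).continuousAt
  have hder : ∀ x ∈ Ioo a b, ∃ D, HasDerivAt Φ D x ∧ 0 ≤ D := by
    intro x hx
    have hxI : x ∈ Icc a b := Ioo_subset_Icc_self hx
    have hev : ∀ᶠ y in 𝓝 x, cl a b y = y := by
      filter_upwards [Ioo_mem_nhds hx.1 hx.2] with y hy
      exact cl_eq (Ioo_subset_Icc_self hy)
    have d1 : HasDerivAt U (u' x) x := by
      refine (hu' x hx).congr_of_eventuallyEq ?_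
      filter_upwards [hev] with y hy
      simp only [hU, hy]
    have d2 : HasDerivAt w (exp (-V x) * (-V' x)) x := by
      have : HasDerivAt (fun y => exp (-V y)) (exp (-V x) * (-V' x)) x := ((hV' x hx).neg).exp
      refine this.congr_of_eventuallyEq ?_
      filter_upwards [hev] with y hy
      simp only [hw, hy]
    have dg : HasDerivAt g (u' x * w x + U x * (exp (-V x) * (-V' x))) x := d1.mul d2
    have dT := hTd x
    have dθ : HasDerivAt (fun y => T y - y) ((w (T x))⁻¹ * g x - 1) x := dT.sub (hasDerivAt_id x)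
    have dΦ := ((dg.mul dθ).add (hPd x)).sub (hQd x)
    refine ⟨_, dΦ, ?_⟩
    have hTI : T x ∈ Icc a b := ⟨hTlo x hx.1.le, hThi x hx.2.le⟩
    have ew : w x = exp (-V x) := by simp only [hw, cl_eq hxI]
    have eU : U x = u x := by simp only [hU, cl_eq hxI]
    have eU' : U' x = u' x := by simp only [hU', cl_eq hxI]
    have ewT : w (T x) = exp (-V (T x)) := by simp only [hw, cl_eq hTI]
    have hux := hu0 x hxI
    have hcv := hconv x hx (T x) hTI
    set θ := T x - x with hθ
    set W := exp (-V x) with hW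
    have hW0 : 0 < W := exp_pos _
    set R := (w (T x))⁻¹ * g x with hR
    have hR0 : 0 < R := by
      have := hw0 (T x)
      have h3 : 0 < g x := mul_pos (hU0 x) (hw0 x)
      positivity
    have hlogR : log R = log (u x) + V (T x) - V x := by
      rw [hR, hg]
      simp only
      rw [ewT, ew, eU, log_mul (by positivity) (by positivity), log_mul (by positivity)
        (by positivity), log_inv, log_exp, hW, log_exp]
      ring
    have hlR := log_le_sub_one_of_pos hR0
    simp only [hP, hQ, hg]
    rw [ew, eU, eU']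
    have h5 : log (u x) ≤ R - 1 - V' x * θ - θ ^ 2 / 2 := by linarith
    have h6 : u x * log (u x) * W ≤ u x * (R - 1 - V' x * θ - θ ^ 2 / 2) * W := by
      gcongr
    have h7 : 0 ≤ (u' x + u x * θ) ^ 2 / (2 * u x) * W := by positivity
    have h8 : (u' x + u x * θ) ^ 2 / (2 * u x) * W =
        u' x ^ 2 / (2 * u x) * W + u' x * θ * W + u x * θ ^ 2 / 2 * W := by
      field_simp
      ring
    rw [h8] at h7
    nlinarith [h6, h7]
  have key : Φ a ≤ Φ b := by
    refine (monotoneOn_of_deriv_nonneg (convex_Icc a b) hΦc.continuousOn ?_ ?_)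
      (left_mem_Icc.2 hab.le) (right_mem_Icc.2 hab.le) hab.le
    · rw [interior_Icc]
      intro x hx
      obtain ⟨D, hD, _⟩ := hder x hx
      exact hD.differentiableAt.differentiableWithinAt
    · rw [interior_Icc]
      intro x hx
      obtain ⟨D, hD, h0⟩ := hder x hx
      rw [hD.deriv]
      exact h0
  have ea : Φ a = 0 := by
    simp [hΦ, hTa]
  have eb : Φ b = (∫ t in a..b, P t) - ∫ t in a..b, Q t := by
    simp [hΦ, hTb]
  have h1 : ∫ x in a..b, Q x = ∫ x in a..b, u x * log (u x) * exp (-V x) := by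
    refine intervalIntegral.integral_congr fun x hx => ?_
    rw [hIcc] at hx
    simp only [hQ, hU, hw, cl_eq hx]
  have h2 : ∫ x in a..b, P x = ∫ x in a..b, (u' x) ^ 2 / (2 * u x) * exp (-V x) := by
    refine intervalIntegral.integral_congr fun x hx => ?_
    rw [hIcc] at hx
    simp only [hP, hU, hU', hw, cl_eq hx]
  rw [← h1, ← h2]
  linarith

end Pool.Agent.X139.LS
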